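import Pool.Agent.Lib.MP_6bd702_percu2.Defs
import Pool.Agent.Lib.MP_6bd702_perc.PlanarA

/-!
# Crossings of overlapping rectangles meet (task T_Cross)
-/

set_option autoImplicit false
set_option linter.unnecessarySeqFocus false

namespace Pool.Agent.PercT

open Finset Pool.Agent.Perc

variable {ω : Cfg} {x₀ x₁ y₀ y₁ x₀' x₁' y₀' y₁' : ℤ} {u v u' v' : ℤ × ℤ}

/-- A path through a vertical strip contains a crossing of the strip. -/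
theorem strip_hor (h1 : x₀ ≤ x₀') (h2 : x₀' < x₁') (h3 : x₁' ≤ x₁) (hu : u.1 ≤ x₀')
    (hu2 : x₀ ≤ u.1 ∧ y₀ ≤ u.2 ∧ u.2 ≤ y₁) (hv : x₁' ≤ v.1)
    (h : Conn ω (RF x₀ x₁ y₀ y₁) u v) :
    ∃ a b : ℤ × ℤ, a.1 = x₀' ∧ y₀ ≤ a.2 ∧ a.2 ≤ y₁ ∧ b.1 = x₁' ∧
      Conn ω (RF x₀' x₁' y₀ y₁) a b ∧ Conn ω (RF x₀ x₁ y₀ y₁) u a := by
  have key : ∀ w, Conn ω (RF x₀ x₁ y₀ y₁) u w →
      (w.1 < x₀' ∨ (∃ a : ℤ × ℤ, a.1 = x₀' ∧ y₀ ≤ a.2 ∧ a.2 ≤ y₁ ∧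
        Conn ω (RF x₀ x₁ y₀ y₁) u a ∧ Conn ω (RF x₀' x₁' y₀ y₁) a w ∧ x₀' ≤ w.1 ∧ w.1 ≤ x₁') ∨
      ∃ a b : ℤ × ℤ, a.1 = x₀' ∧ y₀ ≤ a.2 ∧ a.2 ≤ y₁ ∧ b.1 = x₁' ∧
        Conn ω (RF x₀' x₁' y₀ y₁) a b ∧ Conn ω (RF x₀ x₁ y₀ y₁) u a) := by
    intro w hw
    induction hw with
    | refl =>
      rcases lt_or_eq_of_le hu with hlt | heq
      · exact Or.inl hlt
      · exact Or.inr (Or.inl ⟨u, heq, hu2.2.1, hu2.2.2, Relation.ReflTransGen.refl,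
          Relation.ReflTransGen.refl, heq.ge, by omega⟩)
    | @tail w w' hw hb ih =>
      have hm := Conn.mem_rect (Relation.ReflTransGen.tail hw hb) ⟨hu2.1, by omega, hu2.2⟩
      rcases ih with hlt | ⟨a, ha1, ha2, ha3, ha4, ha5, ha6, ha7⟩ | hfin
      · by_cases hw' : w'.1 < x₀'
        · exact Or.inl hw'
        · have e : w'.1 = x₀' := by
            obtain ⟨x, y, -, ⟨-, ⟨rfl, rfl⟩ | ⟨rfl, rfl⟩⟩ | ⟨-, ⟨rfl, rfl⟩ | ⟨rfl, rfl⟩⟩⟩ := hb <;>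
              simp only at hlt hw' ⊢ <;> omega
          exact Or.inr (Or.inl ⟨w', e, hm.2.2.1, hm.2.2.2, Relation.ReflTransGen.tail hw hb,
            Relation.ReflTransGen.refl, e.ge, by omega⟩)
      · by_cases hw1 : w.1 = x₁'
        · exact Or.inr (Or.inr ⟨a, w, ha1, ha2, ha3, hw1, ha5, ha4⟩)
        · by_cases hw' : w'.1 < x₀'
          · exact Or.inl hw'
          · obtain ⟨x, y, hxy, hh⟩ := hb
            have hface : (x, y) ∈ (RF x₀' x₁' y₀ y₁ : Set (ℤ × ℤ)) ∧ w'.1 ≤ x₁' := by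
              simp only [RF, coe_product, Set.mem_prod, coe_Ico, Set.mem_Ico] at hxy ⊢
              rcases hh with ⟨-, ⟨rfl, rfl⟩ | ⟨rfl, rfl⟩⟩ | ⟨-, ⟨rfl, rfl⟩ | ⟨rfl, rfl⟩⟩ <;>
                simp only at hw' ha6 ha7 hw1 ⊢ <;> omega
            exact Or.inr (Or.inl ⟨a, ha1, ha2, ha3, ha4,
              Relation.ReflTransGen.tail ha5 ⟨x, y, hface.1, hh⟩, by omega, hface.2⟩)
      · exact Or.inr (Or.inr hfin)
  rcases key v h with hlt | ⟨a, ha1, ha2, ha3, ha4, ha5, ha6, ha7⟩ | hfin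
  · omega
  · exact ⟨a, v, ha1, ha2, ha3, by omega, ha5, ha4⟩
  · exact hfin

theorem strip_ver (h1 : y₀ ≤ y₀') (h2 : y₀' < y₁') (h3 : y₁' ≤ y₁) (hu : u.2 ≤ y₀')
    (hu2 : y₀ ≤ u.2 ∧ x₀ ≤ u.1 ∧ u.1 ≤ x₁) (hv : y₁' ≤ v.2)
    (h : Conn ω (RF x₀ x₁ y₀ y₁) u v) :
    ∃ a b : ℤ × ℤ, a.2 = y₀' ∧ x₀ ≤ a.1 ∧ a.1 ≤ x₁ ∧ b.2 = y₁' ∧
      Conn ω (RF x₀ x₁ y₀' y₁') a b ∧ Conn ω (RF x₀ x₁ y₀ y₁) u a := by
  have key : ∀ w, Conn ω (RF x₀ x₁ y₀ y₁) u w →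
      (w.2 < y₀' ∨ (∃ a : ℤ × ℤ, a.2 = y₀' ∧ x₀ ≤ a.1 ∧ a.1 ≤ x₁ ∧
        Conn ω (RF x₀ x₁ y₀ y₁) u a ∧ Conn ω (RF x₀ x₁ y₀' y₁') a w ∧ y₀' ≤ w.2 ∧ w.2 ≤ y₁') ∨
      ∃ a b : ℤ × ℤ, a.2 = y₀' ∧ x₀ ≤ a.1 ∧ a.1 ≤ x₁ ∧ b.2 = y₁' ∧
        Conn ω (RF x₀ x₁ y₀' y₁') a b ∧ Conn ω (RF x₀ x₁ y₀ y₁) u a) := by
    intro w hw
    induction hw with
    | refl =>
      rcases lt_or_eq_of_le hu with hlt | heq
      · exact Or.inl hlt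
      · exact Or.inr (Or.inl ⟨u, heq, hu2.2.1, hu2.2.2, Relation.ReflTransGen.refl,
          Relation.ReflTransGen.refl, heq.ge, by omega⟩)
    | @tail w w' hw hb ih =>
      have hm := Conn.mem_rect (Relation.ReflTransGen.tail hw hb)
        ⟨hu2.2.1, hu2.2.2, hu2.1, by omega⟩
      rcases ih with hlt | ⟨a, ha1, ha2, ha3, ha4, ha5, ha6, ha7⟩ | hfin
      · by_cases hw' : w'.2 < y₀'
        · exact Or.inl hw'
        · have e : w'.2 = y₀' := by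
            obtain ⟨x, y, -, ⟨-, ⟨rfl, rfl⟩ | ⟨rfl, rfl⟩⟩ | ⟨-, ⟨rfl, rfl⟩ | ⟨rfl, rfl⟩⟩⟩ := hb <;>
              simp only at hlt hw' ⊢ <;> omega
          exact Or.inr (Or.inl ⟨w', e, hm.1, hm.2.1, Relation.ReflTransGen.tail hw hb,
            Relation.ReflTransGen.refl, e.ge, by omega⟩)
      · by_cases hw1 : w.2 = y₁'
        · exact Or.inr (Or.inr ⟨a, w, ha1, ha2, ha3, hw1, ha5, ha4⟩)
        · by_cases hw' : w'.2 < y₀'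
          · exact Or.inl hw'
          · obtain ⟨x, y, hxy, hh⟩ := hb
            have hface : (x, y) ∈ (RF x₀ x₁ y₀' y₁' : Set (ℤ × ℤ)) ∧ w'.2 ≤ y₁' := by
              simp only [RF, coe_product, Set.mem_prod, coe_Ico, Set.mem_Ico] at hxy ⊢
              rcases hh with ⟨-, ⟨rfl, rfl⟩ | ⟨rfl, rfl⟩⟩ | ⟨-, ⟨rfl, rfl⟩ | ⟨rfl, rfl⟩⟩ <;>
                simp only at hw' ha6 ha7 hw1 ⊢ <;> omega
            exact Or.inr (Or.inl ⟨a, ha1, ha2, ha3, ha4,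
              Relation.ReflTransGen.tail ha5 ⟨x, y, hface.1, hh⟩, by omega, hface.2⟩)
      · exact Or.inr (Or.inr hfin)
  rcases key v h with hlt | ⟨a, ha1, ha2, ha3, ha4, ha5, ha6, ha7⟩ | hfin
  · omega
  · exact ⟨a, v, ha1, ha2, ha3, by omega, ha5, ha4⟩
  · exact hfin

namespace Cross

theorem rf_sub {a b c d a' b' c' d' : ℤ} (h1 : a ≤ a') (h2 : b' ≤ b) (h3 : c ≤ c') (h4 : d' ≤ d) :
    (RF a' b' c' d' : Set (ℤ × ℤ)) ⊆ RF a b c d := by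
  intro f hf
  simp only [RF, coe_product, Set.mem_prod, coe_Ico, Set.mem_Ico] at hf ⊢
  omega

theorem rf_strip {a b c d H : ℤ} (h3 : -H ≤ c) (h4 : d ≤ H) :
    (RF a b c d : Set (ℤ × ℤ)) ⊆ stripZ H := by
  intro f hf
  simp only [RF, coe_product, Set.mem_prod, coe_Ico, Set.mem_Ico] at hf
  show -H ≤ f.2 ∧ f.2 < H
  omega

end Cross

/-- A left-right crossing of a wide rectangle and a bottom-top crossing of a tall rectangle of the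
same parity meet in the intersection of the two rectangles. -/
theorem cross_meet (h1 : x₀ ≤ x₀') (h2 : x₀' < x₁') (h3 : x₁' ≤ x₁) (h4 : y₀' ≤ y₀)
    (h5 : y₀ < y₁) (h6 : y₁ ≤ y₁') (hu : u.1 = x₀ ∧ y₀ ≤ u.2 ∧ u.2 ≤ y₁) (hv : v.1 = x₁)
    (hu' : u'.2 = y₀' ∧ x₀' ≤ u'.1 ∧ u'.1 ≤ x₁') (hv' : v'.2 = y₁')
    (hpar : (u.1 + u.2) % 2 = (u'.1 + u'.2) % 2)
    (h : Conn ω (RF x₀ x₁ y₀ y₁) u v) (h' : Conn ω (RF x₀' x₁' y₀' y₁') u' v') :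
    ∃ w : ℤ × ℤ, x₀' ≤ w.1 ∧ w.1 ≤ x₁' ∧ y₀ ≤ w.2 ∧ w.2 ≤ y₁ ∧
      Conn ω (RF x₀ x₁ y₀ y₁) u w ∧ Conn ω (RF x₀' x₁' y₀' y₁') u' w := by
  obtain ⟨a, b, ha1, ha2, ha3, hb, hab, hua⟩ := strip_hor (x₀' := x₀') (x₁' := x₁') h1 h2 h3
    (by omega) ⟨by omega, hu.2⟩ (by omega) h
  obtain ⟨a', b', ha1', ha2', ha3', hb', hab', hua'⟩ := strip_ver (y₀' := y₀) (y₁' := y₁) h4 h5 h6
    (by omega) ⟨by omega, hu'.2⟩ (by omega) h'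
  have hp1 := Conn.parity hua
  have hp2 := Conn.parity hua'
  have hm := crossings_meet h2 h5 ⟨ha1, ha2, ha3⟩ hb ⟨ha1', ha2', ha3'⟩ hb' (by omega) hab hab'
  refine ⟨a', ha2', ha3', ha1'.ge, by omega, ?_, hua'⟩
  exact hua.trans (hm.mono (Cross.rf_sub h1 h3 le_rfl le_rfl))

/-- A crossing path around the cylinder: a tube which crosses the ring is connected to its
translate. `η` is periodic with period `16 R`. -/
theorem ring_tube {η : Cfg} {R c H : ℤ} (hR : 0 < R)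
    (hper : ∀ f : ℤ × ℤ, η (f.1 + 16 * R, f.2) = η f) (hη : η ∈ RingE R c y₀ y₁)
    (hy : y₀ < y₁) (h1 : 0 ≤ x₀') (h2 : x₀' < x₁') (h3 : x₁' ≤ 4 * R) (h4 : y₀' ≤ y₀)
    (h5 : y₁ ≤ y₁') (hH : -H ≤ y₀' ∧ y₁' ≤ H) (hu' : u'.2 = y₀' ∧ x₀' ≤ u'.1 ∧ u'.1 ≤ x₁')
    (hv' : v'.2 = y₁') (hpar : (u'.1 + u'.2 - c) % 2 = 0)
    (h' : Conn η (RF x₀' x₁' y₀' y₁') u' v') :
    Conn η (stripZ H) u' (u'.1 + 16 * R, u'.2) := by
  have hLR : ∀ i : ℤ, ∃ u v : ℤ × ℤ, u.1 = 2 * R * i ∧ y₀ ≤ u.2 ∧ u.2 ≤ y₁ ∧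
      v.1 = 2 * R * i + 4 * R ∧ (u.1 + u.2 - c) % 2 = 0 ∧
      Conn η (RF (2 * R * i) (2 * R * i + 4 * R) y₀ y₁) u v := fun i => (hη i).1
  choose U V hU1 hU2 hU3 hV hUp hUV using hLR
  have hs : ∀ a b : ℤ, (RF a b y₀ y₁ : Set (ℤ × ℤ)) ⊆ stripZ H := fun a b =>
    Cross.rf_strip (by omega) (by omega)
  -- consecutive crossings
  have hstep : ∀ i : ℤ, Conn η (stripZ H) (U i) (U (i + 1)) := by
    intro i
    obtain ⟨p, q, hp1, hp2, hp3, hq, hpp, hpq⟩ := (hη i).2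
    have e1 : 2 * R * (i + 1) = 2 * R * i + 2 * R := by ring
    obtain ⟨w, -, -, -, -, hw1, hw2⟩ := cross_meet (x₀ := 2 * R * i) (x₁ := 2 * R * i + 4 * R)
      (x₀' := 2 * R * i + 2 * R) (x₁' := 2 * R * i + 4 * R) (y₀ := y₀) (y₁ := y₁)
      (y₀' := y₀) (y₁' := y₁) (by omega) (by omega) le_rfl le_rfl hy le_rfl
      ⟨hU1 i, hU2 i, hU3 i⟩ (hV i) ⟨hp1, hp2, hp3⟩ hq (by have := hUp i; omega) (hUV i) hpq
    obtain ⟨w', -, -, -, -, hw1', hw2'⟩ := cross_meet (x₀ := 2 * R * (i + 1))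
      (x₁ := 2 * R * (i + 1) + 4 * R)
      (x₀' := 2 * R * i + 2 * R) (x₁' := 2 * R * i + 4 * R) (y₀ := y₀) (y₁ := y₁)
      (y₀' := y₀) (y₁' := y₁) (by omega) (by omega) (by omega) le_rfl hy le_rfl
      ⟨hU1 (i + 1), hU2 (i + 1), hU3 (i + 1)⟩ (hV (i + 1)) ⟨hp1, hp2, hp3⟩ hq
      (by have := hUp (i + 1); omega) (hUV (i + 1)) hpq
    exact ((hw1.mono (hs _ _)).trans (Conn.symm (hw2.mono (hs _ _)))).trans
      ((hw2'.mono (hs _ _)).trans (Conn.symm (hw1'.mono (hs _ _))))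
  have hall : ∀ n : ℕ, Conn η (stripZ H) (U 0) (U n) := by
    intro n
    induction n with
    | zero => exact Relation.ReflTransGen.refl
    | succ n ih =>
      have := hstep n
      push_cast
      exact ih.trans this
  have h08 : Conn η (stripZ H) (U 0) (U 8) := hall 8
  -- the tube meets the crossing number 0
  have ht : (RF x₀' x₁' y₀' y₁' : Set (ℤ × ℤ)) ⊆ stripZ H := Cross.rf_strip hH.1 hH.2
  obtain ⟨w, -, -, -, -, hw1, hw2⟩ := cross_meet (x₀ := 2 * R * 0) (x₁ := 2 * R * 0 + 4 * R)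
    (x₀' := x₀') (x₁' := x₁') (y₀ := y₀) (y₁ := y₁) (y₀' := y₀') (y₁' := y₁')
    (by omega) h2 (by omega) h4 hy h5 ⟨hU1 0, hU2 0, hU3 0⟩ (hV 0) hu' hv'
    (by have := hUp 0; omega) (hUV 0) h'
  -- the translate
  have hsh : shiftC (16 * R) 0 η = η := by
    funext f
    have := hper f
    simpa [shiftC] using this
  have hT := (conn_shift (16 * R) 0 η (RF x₀' x₁' y₀' y₁') u' v').mp (by rw [hsh]; exact h')
  have hset : {f : ℤ × ℤ | (f.1 - 16 * R, f.2 - 0) ∈ (RF x₀' x₁' y₀' y₁' : Set (ℤ × ℤ))}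
      = (RF (x₀' + 16 * R) (x₁' + 16 * R) y₀' y₁' : Set (ℤ × ℤ)) := by
    ext f
    simp only [RF, coe_product, Set.mem_prod, coe_Ico, Set.mem_Ico, Set.mem_ofPred_eq]
    omega
  rw [hset] at hT
  obtain ⟨w', -, -, -, -, hw1', hw2'⟩ := cross_meet (x₀ := 2 * R * 8) (x₁ := 2 * R * 8 + 4 * R)
    (x₀' := x₀' + 16 * R) (x₁' := x₁' + 16 * R) (y₀ := y₀) (y₁ := y₁) (y₀' := y₀') (y₁' := y₁')
    (by omega) (by omega) (by omega) h4 hy h5 ⟨hU1 8, hU2 8, hU3 8⟩ (hV 8)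
    (u' := (u'.1 + 16 * R, u'.2 + 0)) (v' := (v'.1 + 16 * R, v'.2 + 0))
    (by simp only; omega) (by simp only; omega)
    (by have := hUp 8; simp only; omega) (hUV 8) hT
  have hfin := ((hw2.mono ht).trans (Conn.symm (hw1.mono (hs _ _)))).trans
    ((h08.trans (hw1'.mono (hs _ _))).trans
      (Conn.symm (hw2'.mono (Cross.rf_strip hH.1 hH.2))))
  rwa [add_zero] at hfin

end Pool.Agent.PercT
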