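import Pool.Agent.Lib.MP_6bd702_percu2.Defs
import Pool.Agent.Lib.MP_6bd702_perc.Prob

/-!
# Resampling off a stopping set (task T_Mix)
-/

set_option autoImplicit false

namespace Pool.Agent.PercT

open Finset Pool.Agent.Perc

variable {W : Finset (ℤ × ℤ)}

theorem mix_of_mem {S : Set (ℤ × ℤ)} {ω ξ : Cfg} {f : ℤ × ℤ} (h : f ∈ S) :
    mix S ω ξ f = ω f := if_pos h

theorem mix_of_notMem {S : Set (ℤ × ℤ)} {ω ξ : Cfg} {f : ℤ × ℤ} (h : f ∉ S) :
    mix S ω ξ f = ξ f := if_neg h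

theorem mix_mix_left (S : Set (ℤ × ℤ)) (ω ξ : Cfg) : mix S (mix S ω ξ) (mix S ξ ω) = ω := by
  funext f
  by_cases h : f ∈ S
  · rw [mix_of_mem h, mix_of_mem h]
  · rw [mix_of_notMem h, mix_of_notMem h]

open Classical in
/-- The set of faces which are in `T` (on `S`) or in `U` (off `S`). -/
noncomputable def mixF (S : Set (ℤ × ℤ)) (T U : Finset (ℤ × ℤ)) : Finset (ℤ × ℤ) :=
  T.filter (fun f => f ∈ S) ∪ U.filter (fun f => f ∉ S)

theorem mem_mixF {S : Set (ℤ × ℤ)} {T U : Finset (ℤ × ℤ)} {f : ℤ × ℤ} :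
    f ∈ mixF S T U ↔ (f ∈ T ∧ f ∈ S) ∨ (f ∈ U ∧ f ∉ S) := by
  classical
  unfold mixF
  rw [Finset.mem_union, Finset.mem_filter, Finset.mem_filter]

theorem mixF_subset {S : Set (ℤ × ℤ)} {T U : Finset (ℤ × ℤ)} (hT : T ⊆ W) (hU : U ⊆ W) :
    mixF S T U ⊆ W := by
  intro f hf
  rcases mem_mixF.1 hf with h | h
  · exact hT h.1
  · exact hU h.1

theorem mixF_mixF (S : Set (ℤ × ℤ)) (T U : Finset (ℤ × ℤ)) :
    mixF S (mixF S T U) (mixF S U T) = T := by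
  ext f
  rw [mem_mixF, mem_mixF, mem_mixF]
  by_cases h : f ∈ S
  · simp [h]
  · simp [h]

theorem cfg_mixF (S : Set (ℤ × ℤ)) (T U : Finset (ℤ × ℤ)) :
    cfg (mixF S T U) = mix S (cfg T) (cfg U) := by
  funext f
  by_cases h : f ∈ S
  · rw [mix_of_mem h]
    unfold cfg
    have : f ∈ mixF S T U ↔ f ∈ T := by rw [mem_mixF]; simp [h]
    simp only [this]
  · rw [mix_of_notMem h]
    unfold cfg
    have : f ∈ mixF S T U ↔ f ∈ U := by rw [mem_mixF]; simp [h]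
    simp only [this]

open Classical in
/-- The mixture has the law of the first configuration. -/
theorem sum_mix {S : Cfg → Set (ℤ × ℤ)}
    (hS : ∀ ω ω' : Cfg, (∀ f ∈ S ω, ω f = ω' f) → S ω' = S ω) (X : Set Cfg) :
    ∑ T ∈ W.powerset, ∑ U ∈ W.powerset,
        (if mix (S (cfg T)) (cfg T) (cfg U) ∈ X then (1 : ℝ) else 0) =
      2 ^ W.card * ∑ T ∈ W.powerset, (if cfg T ∈ X then (1 : ℝ) else 0) := by
  have key : ∀ T U : Finset (ℤ × ℤ), S (cfg (mixF (S (cfg T)) T U)) = S (cfg T) := by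
    intro T U
    refine hS _ _ fun f hf => ?_
    rw [cfg_mixF, mix_of_mem hf]
  have h1 : ∑ T ∈ W.powerset, ∑ U ∈ W.powerset,
        (if mix (S (cfg T)) (cfg T) (cfg U) ∈ X then (1 : ℝ) else 0) =
      ∑ p ∈ W.powerset ×ˢ W.powerset, (if cfg p.1 ∈ X then (1 : ℝ) else 0) := by
    rw [← Finset.sum_product']
    refine Finset.sum_nbij' (fun p => (mixF (S (cfg p.1)) p.1 p.2, mixF (S (cfg p.1)) p.2 p.1))
      (fun p => (mixF (S (cfg p.1)) p.1 p.2, mixF (S (cfg p.1)) p.2 p.1)) ?_ ?_ ?_ ?_ ?_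
    · intro p hp
      rw [Finset.mem_product, Finset.mem_powerset, Finset.mem_powerset] at hp ⊢
      exact ⟨mixF_subset hp.1 hp.2, mixF_subset hp.2 hp.1⟩
    · intro p hp
      rw [Finset.mem_product, Finset.mem_powerset, Finset.mem_powerset] at hp ⊢
      exact ⟨mixF_subset hp.1 hp.2, mixF_subset hp.2 hp.1⟩
    · rintro ⟨T, U⟩ _
      simp only [key, mixF_mixF]
    · rintro ⟨T, U⟩ _
      simp only [key, mixF_mixF]
    · rintro ⟨T, U⟩ _
      simp only [cfg_mixF]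
  rw [h1, Finset.sum_product, Finset.mul_sum]
  refine Finset.sum_congr rfl fun T _ => ?_
  change ∑ _U ∈ W.powerset, (if cfg T ∈ X then (1 : ℝ) else 0) = _
  rw [Finset.sum_const, Finset.card_powerset, nsmul_eq_mul]
  push_cast
  rfl

/-- Resampling, lower bound. -/
theorem pr_mix {S : Cfg → Set (ℤ × ℤ)}
    (hS : ∀ ω ω' : Cfg, (∀ f ∈ S ω, ω f = ω' f) → S ω' = S ω)
    (A : Set Cfg) (B : Cfg → Set Cfg) (X : Set Cfg) {c : ℝ} (hB : ∀ ω ∈ A, c ≤ pr W (B ω))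
    (hX : ∀ ω ∈ A, ∀ ξ ∈ B ω, mix (S ω) ω ξ ∈ X) : c * pr W A ≤ pr W X := by
  classical
  have hpow : (0 : ℝ) < 2 ^ W.card := by positivity
  have h1 : ∀ T ∈ W.powerset, c * (2 ^ W.card * (if cfg T ∈ A then (1 : ℝ) else 0)) ≤
      ∑ U ∈ W.powerset, (if mix (S (cfg T)) (cfg T) (cfg U) ∈ X then (1 : ℝ) else 0) := by
    intro T _
    by_cases hA : cfg T ∈ A
    · rw [if_pos hA, mul_one]
      have h2 := hB _ hA
      rw [ProbA.pr_eq_sum, le_div_iff₀ hpow] at h2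
      refine h2.trans (Finset.sum_le_sum fun U _ => ?_)
      by_cases h3 : cfg U ∈ B (cfg T)
      · rw [if_pos h3, if_pos (hX _ hA _ h3)]
      · rw [if_neg h3]
        split_ifs <;> norm_num
    · rw [if_neg hA, mul_zero, mul_zero]
      refine Finset.sum_nonneg fun U _ => ?_
      split_ifs <;> norm_num
  have h2 := Finset.sum_le_sum h1
  rw [sum_mix hS X, ← Finset.mul_sum, ← Finset.mul_sum] at h2
  rw [ProbA.pr_eq_sum, ProbA.pr_eq_sum, ← mul_div_assoc]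
  refine div_le_div_of_nonneg_right ?_ hpow.le
  have h3 : c * (2 ^ W.card * ∑ T ∈ W.powerset, (if cfg T ∈ A then (1 : ℝ) else 0)) =
      2 ^ W.card * (c * ∑ T ∈ W.powerset, (if cfg T ∈ A then (1 : ℝ) else 0)) := by ring
  rw [h3] at h2
  exact le_of_mul_le_mul_left h2 hpow

/-- Resampling, upper bound. -/
theorem pr_mix_le {S : Cfg → Set (ℤ × ℤ)}
    (hS : ∀ ω ω' : Cfg, (∀ f ∈ S ω, ω f = ω' f) → S ω' = S ω)
    {A : Set Cfg} (hA : ∀ ω ∈ A, ∀ ω' : Cfg, (∀ f ∈ S ω, ω f = ω' f) → ω' ∈ A)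
    (B : Cfg → Set Cfg) (X : Set Cfg) {q : ℝ} (hB : ∀ ω ∈ A, pr W (B ω) ≤ q)
    (hX : ∀ ω ∈ A, ∀ ξ : Cfg, mix (S ω) ω ξ ∈ X → ξ ∈ B ω) : pr W (A ∩ X) ≤ q * pr W A := by
  classical
  have hpow : (0 : ℝ) < 2 ^ W.card := by positivity
  have key := pr_mix (W := W) hS A (fun ω => (B ω)ᶜ) (A ∩ Xᶜ) (c := 1 - q) ?_ ?_
  · have h1 : pr W A = pr W (A ∩ X) + pr W (A ∩ Xᶜ) := by
      rw [ProbA.pr_eq_sum, ProbA.pr_eq_sum, ProbA.pr_eq_sum, ← add_div, ← Finset.sum_add_distrib]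
      congr 1
      refine Finset.sum_congr rfl fun T _ => ?_
      by_cases h2 : cfg T ∈ A
      · by_cases h3 : cfg T ∈ X
        · simp [h2, h3]
        · simp [h2, h3]
      · simp [h2]
    nlinarith [key, h1]
  · intro ω hω
    rw [pr_compl]
    have := hB ω hω
    linarith
  · intro ω hω ξ hξ
    refine ⟨hA ω hω _ fun f hf => ?_, fun h => hξ (hX ω hω ξ h)⟩
    rw [mix_of_mem hf]

end Pool.Agent.PercT
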