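import Pool.Agent.Lib.MP_6bd702_percu2.TubeP
import Pool.Agent.Lib.MP_6bd702_percu2.Close
import Pool.Agent.Lib.MP_6bd702_percw.RswC

/-!
# The inputs Rsw and OneArm
-/

set_option autoImplicit false

namespace Pool.Agent.PercT

open Finset Pool.Agent.Perc

theorem rsw_holds : Rsw := by
  intro k
  obtain ⟨c, hc, h⟩ := rswF k
  obtain ⟨c', hc', h'⟩ := rswF' k
  exact ⟨min c c', lt_min hc hc', fun col x₀ x₁ y₀ y₁ hx hy =>
    ⟨fun hk => (min_le_left _ _).trans (h col x₀ x₁ y₀ y₁ hx hy hk),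
      fun hk => (min_le_right _ _).trans (h' col x₀ x₁ y₀ y₁ hx hy hk)⟩⟩

theorem oneArm_holds : OneArm := by
  obtain ⟨C, β, hC, hβ, h⟩ := oneArm
  refine ⟨C, β, hC, hβ, fun col p r R hr hrR => ?_⟩
  refine le_trans ?_ (by simpa using h col p r R (by exact_mod_cast hr) (by exact_mod_cast hrR))
  refine pr_mono _ ?_
  rintro ω ⟨u, v, h1, h2, h3, h4, h5⟩
  rw [abs_le] at h1 h2
  have h6 := h5.mem_rect ⟨by omega, by omega, by omega, by omega⟩
  refine ⟨u, v, by omega, by omega, by omega, by omega, h3, ⟨?_, h6⟩, h5⟩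
  rcases h4 with h4 | h4
  · rcases eq_or_eq_neg_of_abs_eq h4 with h7 | h7
    · right; left; omega
    · left; omega
  · rcases eq_or_eq_neg_of_abs_eq h4 with h7 | h7
    · right; right; right; omega
    · right; right; left; omega

end Pool.Agent.PercT
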