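import Pool.Agent.Lib.MP_6bd702_percu2.Upper
import Pool.Agent.Lib.MP_6bd702_percw.Bridge
import Pool.Agent.Lib.MP_6bd702_pr_h60.Distinct

/-!
# The outer perimeter of the largest cluster has size `n ^ (7 / 4)`: assembly
-/

set_option autoImplicit false

namespace Pool.Agent.Perc

open Finset Filter Topology

/-- The two-arm probability is of the order `R ^ (-1 / 4)`. -/
theorem p2Bounds : PercL.P2Bounds := by
  obtain ⟨c, hc, h⟩ := p2_ge_quarter
  obtain ⟨C, hC, h'⟩ := PercT.p2_le_quarter
  exact ⟨c, C, hc, hC, fun R hR => ⟨h R hR, h' R hR⟩⟩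

theorem targetW_holds : TargetW := PercW.targetW_of p2Bounds

theorem targetW2_holds : TargetW2 := targetW2_of targetW_holds

theorem targetE_holds : TargetE := by
  obtain ⟨c, hc, h⟩ := main_seven_quarters
  obtain ⟨C, h'⟩ := PercX60.targetE_upper PercT.p2_le_quarter
  exact ⟨c, C, hc, fun n hn sel hsel =>
    ⟨h n hn sel fun T hT => ⟨(hsel T hT).1, (hsel T hT).2⟩, h' n hn sel hsel⟩⟩

end Pool.Agent.Perc
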