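import Pool.Agent.Lib.MP_6bd702_percu2.Defs

/-!
# Rotation by 90 degrees (task T_Rot)

The rotation is `(x, y) ↦ (-y, x)` on the vertices, `(i, j) ↦ (-1 - j, i)` on the faces, the
diagonal bit is flipped; unit edges `(x, y, false) ↦ (-y, x, true)`,
`(x, y, true) ↦ (-y - 1, x, false)`.
-/

set_option autoImplicit false

namespace Pool.Agent.PercT

open Finset Pool.Agent.Perc

namespace Rot

/-- The rotation of the faces. -/
def rF (f : ℤ × ℤ) : ℤ × ℤ := (-1 - f.2, f.1)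

/-- The inverse rotation of the faces. -/
def rF' (f : ℤ × ℤ) : ℤ × ℤ := (f.2, -1 - f.1)

/-- The rotation of the unit edges. -/
def rE (a : UE) : UE := if a.2.2 then (-a.2.1 - 1, a.1, false) else (-a.2.1, a.1, true)

/-- The inverse rotation of the unit edges. -/
def rE' (a : UE) : UE := if a.2.2 then (a.2.1, -a.1, false) else (a.2.1, -a.1 - 1, true)

/-- The configuration seen from the rotated frame. -/
def rC (ω : Cfg) : Cfg := fun f => !ω (rF f)

theorem rE_true (x y : ℤ) : rE (x, y, true) = (-y - 1, x, false) := by simp [rE]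
theorem rE_false (x y : ℤ) : rE (x, y, false) = (-y, x, true) := by simp [rE]
theorem rE'_true (x y : ℤ) : rE' (x, y, true) = (y, -x, false) := by simp [rE']
theorem rE'_false (x y : ℤ) : rE' (x, y, false) = (y, -x - 1, true) := by simp [rE']

theorem rE'_rE (a : UE) : rE' (rE a) = a := by
  obtain ⟨x, y, b⟩ := a
  cases b
  · rw [rE_false, rE'_true]
    simp
  · rw [rE_true, rE'_false]
    refine Prod.ext rfl (Prod.ext ?_ rfl)
    show - (-y - 1) - 1 = y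
    ring

theorem rE_rE' (a : UE) : rE (rE' a) = a := by
  obtain ⟨x, y, b⟩ := a
  cases b
  · rw [rE'_false, rE_true]
    refine Prod.ext ?_ rfl
    show - (-x - 1) - 1 = x
    ring
  · rw [rE'_true, rE_false]
    simp

theorem rF_rF' (f : ℤ × ℤ) : rF (rF' f) = f := by
  refine Prod.ext ?_ rfl
  show -1 - (-1 - f.1) = f.1
  ring

theorem rE_inj {a b : UE} (h : rE a = rE b) : a = b := by
  rw [← rE'_rE a, h, rE'_rE]

theorem rE_bo (f : ℤ × ℤ) : rE (bo f) = ri (rF f) := by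
  rw [bo, rE_false, ri, rF]
  refine Prod.ext ?_ rfl
  show -f.2 = -1 - f.2 + 1
  ring

theorem rE_le (f : ℤ × ℤ) : rE (le' f) = bo (rF f) := by
  rw [le', rE_true, bo, rF]
  refine Prod.ext ?_ rfl
  show -f.2 - 1 = -1 - f.2
  ring

theorem rE_to (f : ℤ × ℤ) : rE (to' f) = le' (rF f) := by
  rw [to', rE_false, le', rF]
  refine Prod.ext ?_ rfl
  show -(f.2 + 1) = -1 - f.2
  ring

theorem rE_ri (f : ℤ × ℤ) : rE (ri f) = to' (rF f) := by
  rw [ri, rE_true, to', rF]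
  refine Prod.ext ?_ rfl
  show -f.2 - 1 = -1 - f.2
  ring

theorem mt_rot {ω : Cfg} {f : ℤ × ℤ} {a a' : UE} (h : Mt (rC ω) f a a') :
    Mt ω (rF f) (rE a) (rE a') := by
  unfold Mt at h ⊢
  have e : rC ω f = !ω (rF f) := rfl
  rw [e] at h
  rcases h with ⟨h1, h2⟩ | ⟨h1, h2⟩
  · right
    refine ⟨by simpa using h1, ?_⟩
    rcases h2 with ⟨rfl, rfl⟩ | ⟨rfl, rfl⟩ | ⟨rfl, rfl⟩ | ⟨rfl, rfl⟩
    · rw [rE_bo, rE_ri]
      exact Or.inr (Or.inr (Or.inr ⟨rfl, rfl⟩))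
    · rw [rE_bo, rE_ri]
      exact Or.inr (Or.inr (Or.inl ⟨rfl, rfl⟩))
    · rw [rE_le, rE_to]
      exact Or.inl ⟨rfl, rfl⟩
    · rw [rE_le, rE_to]
      exact Or.inr (Or.inl ⟨rfl, rfl⟩)
  · left
    refine ⟨by simpa using h1, ?_⟩
    rcases h2 with ⟨rfl, rfl⟩ | ⟨rfl, rfl⟩ | ⟨rfl, rfl⟩ | ⟨rfl, rfl⟩
    · rw [rE_bo, rE_le]
      exact Or.inr (Or.inl ⟨rfl, rfl⟩)
    · rw [rE_bo, rE_le]
      exact Or.inl ⟨rfl, rfl⟩
    · rw [rE_ri, rE_to]
      exact Or.inr (Or.inr (Or.inl ⟨rfl, rfl⟩))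
    · rw [rE_ri, rE_to]
      exact Or.inr (Or.inr (Or.inr ⟨rfl, rfl⟩))

/-- Three more rotations give the inverse. -/
theorem mt_rot' {ω : Cfg} {f : ℤ × ℤ} {a a' : UE} (h : Mt ω (rF f) a a') :
    Mt (rC ω) f (rE' a) (rE' a') := by
  have hb : rE' (ri (rF f)) = bo f := by rw [← rE_bo, rE'_rE]
  have hl : rE' (bo (rF f)) = le' f := by rw [← rE_le, rE'_rE]
  have ht : rE' (le' (rF f)) = to' f := by rw [← rE_to, rE'_rE]
  have hr : rE' (to' (rF f)) = ri f := by rw [← rE_ri, rE'_rE]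
  unfold Mt at h ⊢
  have e : rC ω f = !ω (rF f) := rfl
  rw [e]
  rcases h with ⟨h1, h2⟩ | ⟨h1, h2⟩
  · right
    refine ⟨by simp [h1], ?_⟩
    rcases h2 with ⟨rfl, rfl⟩ | ⟨rfl, rfl⟩ | ⟨rfl, rfl⟩ | ⟨rfl, rfl⟩
    · rw [hl, hb]
      exact Or.inr (Or.inl ⟨rfl, rfl⟩)
    · rw [hl, hb]
      exact Or.inl ⟨rfl, rfl⟩
    · rw [ht, hr]
      exact Or.inr (Or.inr (Or.inl ⟨rfl, rfl⟩))
    · rw [ht, hr]
      exact Or.inr (Or.inr (Or.inr ⟨rfl, rfl⟩))
  · left
    refine ⟨by simp [h1], ?_⟩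
    rcases h2 with ⟨rfl, rfl⟩ | ⟨rfl, rfl⟩ | ⟨rfl, rfl⟩ | ⟨rfl, rfl⟩
    · rw [hl, ht]
      exact Or.inr (Or.inr (Or.inl ⟨rfl, rfl⟩))
    · rw [hl, ht]
      exact Or.inr (Or.inr (Or.inr ⟨rfl, rfl⟩))
    · rw [hr, hb]
      exact Or.inr (Or.inl ⟨rfl, rfl⟩)
    · rw [hr, hb]
      exact Or.inl ⟨rfl, rfl⟩

theorem rF_mem {R : ℤ} {f : ℤ × ℤ} (hf : f ∈ (RF (-R) R (-R) R : Set (ℤ × ℤ))) :
    rF f ∈ (RF (-R) R (-R) R : Set (ℤ × ℤ)) := by
  simp only [RF, coe_product, Set.mem_prod, coe_Ico, Set.mem_Ico, rF] at hf ⊢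
  omega

theorem rF'_mem {R : ℤ} {f : ℤ × ℤ} (hf : f ∈ (RF (-R) R (-R) R : Set (ℤ × ℤ))) :
    rF' f ∈ (RF (-R) R (-R) R : Set (ℤ × ℤ)) := by
  simp only [RF, coe_product, Set.mem_prod, coe_Ico, Set.mem_Ico, rF'] at hf ⊢
  omega

theorem mm_rot {R : ℤ} {ω : Cfg} {e a : UE} (h : a ∈ MM (rC ω) (RF (-R) R (-R) R) e) :
    rE a ∈ MM ω (RF (-R) R (-R) R) (rE e) := by
  induction h with
  | refl => exact Relation.ReflTransGen.refl
  | tail _ hs ih =>
    obtain ⟨f, hf, hm⟩ := hs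
    exact Relation.ReflTransGen.tail ih ⟨rF f, rF_mem hf, mt_rot hm⟩

theorem mm_rot' {R : ℤ} {ω : Cfg} {e a : UE} (h : a ∈ MM ω (RF (-R) R (-R) R) (rE e)) :
    rE' a ∈ MM (rC ω) (RF (-R) R (-R) R) e := by
  induction h with
  | refl => rw [rE'_rE]; exact Relation.ReflTransGen.refl
  | tail _ hs ih =>
    obtain ⟨f, hf, hm⟩ := hs
    refine Relation.ReflTransGen.tail ih ⟨rF' f, rF'_mem hf, mt_rot' ?_⟩
    rw [rF_rF']
    exact hm

theorem bdy_rot {R : ℤ} (a : UE) : Bdy R (rE a) ↔ Bdy R a := by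
  obtain ⟨x, y, b⟩ := a
  unfold Bdy
  cases b
  · rw [rE_false]
    simp only [true_and, Bool.true_eq_false, false_and, or_false, Bool.false_eq_true, false_or]
    omega
  · rw [rE_true]
    simp only [true_and, Bool.true_eq_false, false_and, or_false, Bool.false_eq_true, false_or]
    omega

theorem mid_rot (a : UE) : mid (rE a) = (-(mid a).2, (mid a).1) := by
  obtain ⟨x, y, b⟩ := a
  cases b
  · rw [rE_false]
    simp only [mid, if_true, Bool.false_eq_true, if_false]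
    refine Prod.ext ?_ rfl
    show 2 * -y = -(2 * y)
    ring
  · rw [rE_true]
    simp only [mid, if_true, Bool.false_eq_true, if_false]
    refine Prod.ext ?_ rfl
    show 2 * (-y - 1) + 1 = -(2 * y + 1)
    ring

theorem far_rot {g : ℤ} (a x : UE) : Far g (rE a) (rE x) ↔ Far g a x := by
  unfold Far
  rw [mid_rot, mid_rot]
  simp only
  have e : |-(mid a).2 - -(mid x).2| = |(mid a).2 - (mid x).2| := by
    rw [← abs_neg]
    congr 1
    ring
  rw [e, or_comm]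

/-- The event with a condition on the tip. -/
def SepP (P : UE → Prop) (R g : ℤ) (e : UE) : Set Cfg :=
  {ω | ∃ x ∈ MM ω (RF (-R) R (-R) R) e, P x ∧ Bdy R x ∧
    ∀ a ∈ MM ω (RF (-R) R (-R) R) e, Bdy R a → a ≠ x → Far g a x}

theorem sepP_rot {P : UE → Prop} {R g : ℤ} {e : UE} {ω : Cfg} :
    rC ω ∈ SepP (fun x => P (rE x)) R g e ↔ ω ∈ SepP P R g (rE e) := by
  constructor
  · rintro ⟨x, hx, hP, hb, hf⟩
    refine ⟨rE x, mm_rot hx, hP, (bdy_rot x).2 hb, fun a ha hba hne => ?_⟩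
    have h1 := hf (rE' a) (mm_rot' ha) (by rw [← bdy_rot, rE_rE']; exact hba) (by
      rintro h
      apply hne
      rw [← h, rE_rE'])
    rw [← far_rot, rE_rE'] at h1
    exact h1
  · rintro ⟨x, hx, hP, hb, hf⟩
    refine ⟨rE' x, mm_rot' hx, ?_, ?_, fun a ha hba hne => ?_⟩
    · show P (rE (rE' x))
      rw [rE_rE']
      exact hP
    · rw [← bdy_rot, rE_rE']
      exact hb
    · rw [← far_rot, rE_rE']
      refine hf (rE a) (mm_rot ha) ((bdy_rot a).2 hba) ?_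
      rintro h
      apply hne
      rw [← h, rE'_rE]

theorem mm_congr {ω ω' : Cfg} {F : Set (ℤ × ℤ)} (h : ∀ f ∈ F, ω f = ω' f) {e a : UE}
    (ha : a ∈ MM ω F e) : a ∈ MM ω' F e := by
  induction ha with
  | refl => exact Relation.ReflTransGen.refl
  | tail _ hs ih =>
    obtain ⟨f, hf, hm⟩ := hs
    refine Relation.ReflTransGen.tail ih ⟨f, hf, ?_⟩
    unfold Mt at hm ⊢
    rw [← h f hf]
    exact hm

theorem mm_eq {ω ω' : Cfg} {F : Set (ℤ × ℤ)} (h : ∀ f ∈ F, ω f = ω' f) (e : UE) :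
    MM ω F e = MM ω' F e :=
  Set.Subset.antisymm (fun _ => mm_congr h) (fun _ => mm_congr fun f hf => (h f hf).symm)

theorem depOn_sepP (P : UE → Prop) (R g : ℤ) (e : UE) :
    DepOn (RF (-R) R (-R) R : Set (ℤ × ℤ)) (SepP P R g e) := by
  intro ω ω' h
  simp only [SepP, Set.mem_ofPred_eq, mm_eq h]

theorem pr_rot {R : ℤ} {A : Set Cfg} (hA : DepOn (RF (-R) R (-R) R : Set (ℤ × ℤ)) A) :
    pr (RF (-R) R (-R) R) {ω | rC ω ∈ A} = pr (RF (-R) R (-R) R) A := by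
  rw [← pr_flip (fun _ => true) hA]
  have hA' : DepOn (RF (-R) R (-R) R : Set (ℤ × ℤ)) {ω | Perc.flip (fun _ => true) ω ∈ A} := by
    intro ω ω' h
    refine hA _ _ fun f hf => ?_
    unfold Perc.flip
    rw [h f hf]
  rw [← pr_comp (S := RF (-R) R (-R) R) (S' := RF (-R) R (-R) R) (f := rF) ?_ ?_ hA']
  · congr 1
    ext ω
    simp only [Set.mem_ofPred_eq]
    have e : rC ω = Perc.flip (fun _ => true) (fun x => ω (rF x)) := by
      funext f
      simp [rC, Perc.flip]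
    rw [e]
  · intro x _ y _ h
    simp only [rF, Prod.mk.injEq] at h
    exact Prod.ext h.2 (by linarith [h.1])
  · intro x hx
    have := rF_mem (R := R) (f := x) (by exact_mod_cast hx)
    exact_mod_cast this

theorem pr_sepP_rot (P : UE → Prop) (R g : ℤ) (e : UE) :
    pr (RF (-R) R (-R) R) (SepP (fun x => P (rE x)) R g e) =
      pr (RF (-R) R (-R) R) (SepP P R g (rE e)) := by
  rw [← pr_rot (depOn_sepP _ R g e)]
  congr 1
  ext ω
  exact sepP_rot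

/-- The right side. -/
def P0 (R : ℤ) (x : UE) : Prop := x.2.2 = true ∧ x.1 = R

theorem sepP_P0 {R g : ℤ} (hR : 1 ≤ R) (e : UE) :
    SepP (P0 R) R g e = {ω | ∃ h, ω ∈ SepR R g h e} := by
  ext ω
  constructor
  · rintro ⟨⟨a, b, c⟩, hx, ⟨hc, ha⟩, hb, hf⟩
    simp only at hc ha
    subst hc ha
    refine ⟨b, ?_, ?_, hx, fun a' ha' hb' hne => hf a' ha' hb' hne⟩
    · unfold Bdy at hb
      simp only [true_and, Bool.true_eq_false, false_and, or_false] at hb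
      omega
    · unfold Bdy at hb
      simp only [true_and, Bool.true_eq_false, false_and, or_false] at hb
      omega
  · rintro ⟨h, h1, h2, h3, h4⟩
    exact ⟨(R, h, true), h3, ⟨rfl, rfl⟩, Or.inl ⟨rfl, Or.inr rfl, h1, h2⟩, h4⟩

theorem side_cases {R : ℤ} {x : UE} (h : Bdy R x) :
    P0 R x ∨ P0 R (rE x) ∨ P0 R (rE (rE x)) ∨ P0 R (rE (rE (rE x))) := by
  obtain ⟨a, b, c⟩ := x
  unfold Bdy at h
  unfold P0
  cases c
  · simp only [Bool.false_eq_true, false_and, false_or, true_and] at h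
    rw [rE_false, rE_true, rE_false]
    simp only [Bool.false_eq_true, false_and, false_or, true_and]
    omega
  · simp only [Bool.true_eq_false, false_and, or_false, true_and] at h
    rw [rE_true, rE_false, rE_true]
    simp only [Bool.false_eq_true, false_and, false_or, true_and, or_false]
    omega

theorem pr_sep_le {R g : ℤ} (e : UE) :
    pr (RF (-R) R (-R) R) (Sep R g e) ≤
      pr (RF (-R) R (-R) R) (SepP (P0 R) R g e) + pr (RF (-R) R (-R) R) (SepP (P0 R) R g (rE e)) +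
        pr (RF (-R) R (-R) R) (SepP (P0 R) R g (rE (rE e))) +
        pr (RF (-R) R (-R) R) (SepP (P0 R) R g (rE (rE (rE e)))) := by
  have hsub : ∀ ω ∈ Sep R g e, ω ∈ ((SepP (P0 R) R g e ∪ SepP (fun x => P0 R (rE x)) R g e) ∪
      SepP (fun x => P0 R (rE (rE x))) R g e) ∪ SepP (fun x => P0 R (rE (rE (rE x)))) R g e := by
    rintro ω ⟨x, hx, hb, hf⟩
    rcases side_cases hb with h | h | h | h
    · exact Or.inl (Or.inl (Or.inl ⟨x, hx, h, hb, hf⟩))
    · exact Or.inl (Or.inl (Or.inr ⟨x, hx, h, hb, hf⟩))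
    · exact Or.inl (Or.inr ⟨x, hx, h, hb, hf⟩)
    · exact Or.inr ⟨x, hx, h, hb, hf⟩
  refine (pr_mono _ hsub).trans ?_
  refine (pr_union_le _ _ _).trans ?_
  refine add_le_add ((pr_union_le _ _ _).trans (add_le_add ((pr_union_le _ _ _).trans
    (add_le_add le_rfl ?_)) ?_)) ?_
  · rw [pr_sepP_rot]
  · rw [pr_sepP_rot (fun x => P0 R (rE x)), pr_sepP_rot]
  · rw [pr_sepP_rot (fun x => P0 R (rE (rE x))), pr_sepP_rot (fun x => P0 R (rE x)), pr_sepP_rot]

theorem rE_eo0 : rE (eo 0) = eo 1 := by simp [eo, rE]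
theorem rE_eo1 : rE (eo 1) = eo 2 := by simp [eo, rE]
theorem rE_eo2 : rE (eo 2) = eo 3 := by simp [eo, rE]
theorem rE_eo3 : rE (eo 3) = eo 0 := by simp [eo, rE]

end Rot

open Rot

theorem rot_sum {R g : ℤ} (hR : 1 ≤ R) :
    ∑ i, pr (RF (-R) R (-R) R) (Sep R g (eo i)) ≤
      4 * ∑ i, pr (RF (-R) R (-R) R) {ω | ∃ h, ω ∈ SepR R g h (eo i)} := by
  simp only [← sepP_P0 hR]
  rw [Fin.sum_univ_four, Fin.sum_univ_four]
  have h0 := pr_sep_le (R := R) (g := g) (eo 0)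
  have h1 := pr_sep_le (R := R) (g := g) (eo 1)
  have h2 := pr_sep_le (R := R) (g := g) (eo 2)
  have h3 := pr_sep_le (R := R) (g := g) (eo 3)
  simp only [rE_eo0, rE_eo1, rE_eo2, rE_eo3] at h0 h1 h2 h3
  linarith

end Pool.Agent.PercT
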