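import Pool.Agent.Lib.MP_6bd702_percu2.Turn
import Pool.Agent.Lib.MP_6bd702_percu2.Cyl

/-!
# Gluing on the cylinder, deterministic part (task T_Glue)
-/

set_option autoImplicit false

namespace Pool.Agent.PercT

open Finset Pool.Agent.Perc

namespace GlueH41

theorem memR {x₀ x₁ y₀ y₁ : ℤ} {f : ℤ × ℤ} :
    f ∈ (RF x₀ x₁ y₀ y₁ : Set (ℤ × ℤ)) ↔ x₀ ≤ f.1 ∧ f.1 < x₁ ∧ y₀ ≤ f.2 ∧ f.2 < y₁ := by
  rw [Finset.mem_coe]
  simp only [RF, mem_product, mem_Ico]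
  tauto

theorem ringE_congr {R c y₀ y₁ : ℤ} {η ξ : Cfg} (h : ∀ f : ℤ × ℤ, y₀ ≤ f.2 → f.2 < y₁ → η f = ξ f)
    (hξ : ξ ∈ RingE R c y₀ y₁) : η ∈ RingE R c y₀ y₁ := by
  intro i
  have hE : ∀ x₀ x₁ : ℤ, ∀ f ∈ (RF x₀ x₁ y₀ y₁ : Set (ℤ × ℤ)), η f = ξ f := by
    intro x₀ x₁ f hf
    rw [memR] at hf
    exact h f hf.2.2.1 hf.2.2.2
  exact ⟨(depOn_LR c _ _ _ _ η ξ (hE _ _)).2 (hξ i).1, (depOn_BT c _ _ _ _ η ξ (hE _ _)).2 (hξ i).2⟩

/-- The deterministic gluing for the end `p` of the colour of the upper end of the tip. -/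
theorem upper {R r : ℕ} (hr : 1 ≤ r) (hrR : 8 * r ≤ R) {h c : ℤ}
    (hc : ((R : ℤ) + h + 1 - c) % 2 = 0) {e : UE} (he : InB R e) {ω ξ : Cfg}
    (hω : perC (16 * R) ω ∈ SepR R (8 * r) h e)
    (hξ : perC (16 * R) ξ ∈ TubeA R r h c) (hξ' : perC (16 * R) ξ ∈ RingE R c (2 * R) (3 * R))
    {p : ℤ × ℤ} (hp : p = ua e ∨ p = ub e) (hpc : (p.1 + p.2 - c) % 2 = 0) :
    Conn (perC (16 * R) (mix (redS (16 * R) (SS (perC (16 * R) ω) (RF (-R) R (-R) R) e)) ω ξ))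
      (stripZ (4 * R)) p (p.1 + ((16 * R : ℕ) : ℤ), p.2) := by
  have hL : 0 < 16 * R := by omega
  have hSbox : ∀ f ∈ SS (perC (16 * R) ω) (RF (-R) R (-R) R) e,
      -(R : ℤ) ≤ f.1 ∧ f.1 < R ∧ -(R : ℤ) ≤ f.2 ∧ f.2 < R := fun f hf => by
    have h1 := hf.1
    rw [memR] at h1
    exact h1
  have hS : ∀ f ∈ SS (perC (16 * R) ω) (RF (-R) R (-R) R) e,
      perC (16 * R) (mix (redS (16 * R) (SS (perC (16 * R) ω) (RF (-R) R (-R) R) e)) ω ξ) f =
        perC (16 * R) ω f := fun f hf => perC_mix hL hf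
  have hG : ∀ f ∉ SS (perC (16 * R) ω) (RF (-R) R (-R) R) e, (R : ℤ) - 4 * r ≤ f.1 →
      f.1 < R + 6 * r →
      perC (16 * R) (mix (redS (16 * R) (SS (perC (16 * R) ω) (RF (-R) R (-R) R) e)) ω ξ) f =
        perC (16 * R) ξ f := by
    intro f hf h1 h2
    refine perC_mix' hL fun k hk => ?_
    have h3 := hSbox _ hk
    simp only at h3
    push_cast at h3
    have hk0 : k = 0 := by
      by_contra hk0
      rcases lt_or_gt_of_ne hk0 with h4 | h4
      · have h5 : k * (16 * (R : ℤ)) ≤ -1 * (16 * (R : ℤ)) :=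
          mul_le_mul_of_nonneg_right (by omega) (by omega)
        omega
      · have h5 : 1 * (16 * (R : ℤ)) ≤ k * (16 * (R : ℤ)) :=
          mul_le_mul_of_nonneg_right (by omega) (by omega)
        omega
    rw [hk0, zero_mul, add_zero] at hk
    exact hf hk
  have hη : perC (16 * R) (mix (redS (16 * R) (SS (perC (16 * R) ω) (RF (-R) R (-R) R) e)) ω ξ) ∈
      RingE R c (2 * R) (3 * R) := by
    refine ringE_congr (fun f h1 _ => perC_mix' hL fun k hk => ?_) hξ'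
    have h3 := hSbox _ hk
    simp only at h3
    omega
  have hh := hω.1
  have hh1 := hω.2.1
  obtain ⟨u, v, h1, h2, h3, h4, h5, h6, h7⟩ := turnA (R := (R : ℤ)) (r := (r : ℤ)) (by omega)
    (by omega) he hp hω hc hpc hξ hS hG
  have h8 := ring_tube (η := perC (16 * R) (mix (redS (16 * R)
      (SS (perC (16 * R) ω) (RF (-R) R (-R) R) e)) ω ξ)) (R := (R : ℤ)) (c := c) (H := 4 * (R : ℤ))
    (by omega) (fun f => by
      unfold perC
      simp only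
      push_cast
      rw [Int.add_emod_right]) hη (by omega) (x₀' := (R : ℤ) + 5 * r)
    (x₁' := (R : ℤ) + 6 * r) (y₀' := h + r) (y₁' := 3 * (R : ℤ)) (by omega) (by omega) (by omega)
    (by omega) le_rfl ⟨by omega, by omega⟩ ⟨h1, h2, h3⟩ h4 h5 h6
  have h9 := conn_perC_shift h7
  refine (h7.trans ?_).trans h9.symm
  rw [show (((16 * R : ℕ) : ℤ)) = 16 * (R : ℤ) by push_cast; ring]
  exact h8

/-- The deterministic gluing for the end `p` of the colour of the lower end of the tip. -/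
theorem lower {R r : ℕ} (hr : 1 ≤ r) (hrR : 8 * r ≤ R) {h c : ℤ}
    (hc : ((R : ℤ) + h - c) % 2 = 0) {e : UE} (he : InB R e) {ω ξ : Cfg}
    (hω : perC (16 * R) ω ∈ SepR R (8 * r) h e)
    (hξ : perC (16 * R) ξ ∈ TubeB R r h c)
    (hξ' : perC (16 * R) ξ ∈ RingE R c (-(3 * R)) (-(2 * R)))
    {p : ℤ × ℤ} (hp : p = ua e ∨ p = ub e) (hpc : (p.1 + p.2 - c) % 2 = 0) :
    Conn (perC (16 * R) (mix (redS (16 * R) (SS (perC (16 * R) ω) (RF (-R) R (-R) R) e)) ω ξ))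
      (stripZ (4 * R)) p (p.1 + ((16 * R : ℕ) : ℤ), p.2) := by
  have hL : 0 < 16 * R := by omega
  have hSbox : ∀ f ∈ SS (perC (16 * R) ω) (RF (-R) R (-R) R) e,
      -(R : ℤ) ≤ f.1 ∧ f.1 < R ∧ -(R : ℤ) ≤ f.2 ∧ f.2 < R := fun f hf => by
    have h1 := hf.1
    rw [memR] at h1
    exact h1
  have hS : ∀ f ∈ SS (perC (16 * R) ω) (RF (-R) R (-R) R) e,
      perC (16 * R) (mix (redS (16 * R) (SS (perC (16 * R) ω) (RF (-R) R (-R) R) e)) ω ξ) f =
        perC (16 * R) ω f := fun f hf => perC_mix hL hf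
  have hG : ∀ f ∉ SS (perC (16 * R) ω) (RF (-R) R (-R) R) e, (R : ℤ) - 4 * r ≤ f.1 →
      f.1 < R + 6 * r →
      perC (16 * R) (mix (redS (16 * R) (SS (perC (16 * R) ω) (RF (-R) R (-R) R) e)) ω ξ) f =
        perC (16 * R) ξ f := by
    intro f hf h1 h2
    refine perC_mix' hL fun k hk => ?_
    have h3 := hSbox _ hk
    simp only at h3
    push_cast at h3
    have hk0 : k = 0 := by
      by_contra hk0
      rcases lt_or_gt_of_ne hk0 with h4 | h4
      · have h5 : k * (16 * (R : ℤ)) ≤ -1 * (16 * (R : ℤ)) :=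
          mul_le_mul_of_nonneg_right (by omega) (by omega)
        omega
      · have h5 : 1 * (16 * (R : ℤ)) ≤ k * (16 * (R : ℤ)) :=
          mul_le_mul_of_nonneg_right (by omega) (by omega)
        omega
    rw [hk0, zero_mul, add_zero] at hk
    exact hf hk
  have hη : perC (16 * R) (mix (redS (16 * R) (SS (perC (16 * R) ω) (RF (-R) R (-R) R) e)) ω ξ) ∈
      RingE R c (-(3 * R)) (-(2 * R)) := by
    refine ringE_congr (fun f _ h1 => perC_mix' hL fun k hk => ?_) hξ'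
    have h3 := hSbox _ hk
    simp only at h3
    omega
  have hh := hω.1
  have hh1 := hω.2.1
  obtain ⟨u, v, h1, h2, h3, h4, h5, h6, h7⟩ := turnB (R := (R : ℤ)) (r := (r : ℤ)) (by omega)
    (by omega) he hp hω hc hpc hξ hS hG
  have h8 := ring_tube (η := perC (16 * R) (mix (redS (16 * R)
      (SS (perC (16 * R) ω) (RF (-R) R (-R) R) e)) ω ξ)) (R := (R : ℤ)) (c := c) (H := 4 * (R : ℤ))
    (by omega) (fun f => by
      unfold perC
      simp only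
      push_cast
      rw [Int.add_emod_right]) hη (by omega) (x₀' := (R : ℤ) + 5 * r)
    (x₁' := (R : ℤ) + 6 * r) (y₀' := -(3 * (R : ℤ))) (y₁' := h - 3 * r) (by omega) (by omega)
    (by omega) le_rfl (by omega) ⟨by omega, by omega⟩ ⟨h1, h2, h3⟩ h4 h5 h6
  have h9 := conn_perC_shift h7
  refine (h7.trans ?_).trans h9.symm
  rw [show (((16 * R : ℕ) : ℤ)) = 16 * (R : ℤ) by push_cast; ring]
  exact h8

end GlueH41

theorem glue_det {R r : ℕ} (hr : 1 ≤ r) (hrR : 8 * r ≤ R) {h c : ℤ}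
    (hc : ((R : ℤ) + h + 1 - c) % 2 = 0) {e : UE} (he : InB R e) {ω ξ : Cfg}
    (hω : perC (16 * R) ω ∈ SepR R (8 * r) h e) (hξ : perC (16 * R) ξ ∈ TubeE R r h c) :
    mix (redS (16 * R) (SS (perC (16 * R) ω) (RF (-R) R (-R) R) e)) ω ξ ∈
      Wrap (16 * R) (4 * R) e := by
  obtain ⟨⟨h1, h2⟩, h3, h4⟩ := hξ
  have hsum : ((ua e).1 + (ua e).2 + 1 = (ub e).1 + (ub e).2) := by
    obtain ⟨x, y, _ | _⟩ := e
    · simp [ua, ub]; ring
    · simp [ua, ub]; ring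
  have hc' : ((R : ℤ) + h - (c + 1)) % 2 = 0 := by omega
  rcases Int.emod_two_eq_zero_or_one ((ua e).1 + (ua e).2 - c) with h5 | h5
  · exact ⟨GlueH41.upper hr hrR hc he hω h1 h2 (Or.inl rfl) h5,
      GlueH41.lower hr hrR hc' he hω h3 h4 (Or.inr rfl) (by omega)⟩
  · exact ⟨GlueH41.lower hr hrR hc' he hω h3 h4 (Or.inl rfl) (by omega),
      GlueH41.upper hr hrR hc he hω h1 h2 (Or.inr rfl) (by omega)⟩

end Pool.Agent.PercT
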