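import Pool.Agent.Lib.MP_6bd702_percu2.Cyl

/-!
# The probability of the tubes (task T_TubeP)

Uses the Russo-Seymour-Welsh theorem for the face grid (helper43, `percw_Rsw.lean`), stated here
as the hypothesis `Rsw`.
-/

set_option autoImplicit false

namespace Pool.Agent.PercT

open Finset Pool.Agent.Perc

/-- The Russo-Seymour-Welsh theorem in the face grid. -/
def Rsw : Prop := ∀ k : ℕ, ∃ c : ℝ, 0 < c ∧ ∀ col x₀ x₁ y₀ y₁ : ℤ, x₀ < x₁ → y₀ < y₁ →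
  (x₁ - x₀ ≤ k * (y₁ - y₀) → c ≤ pr (RF x₀ x₁ y₀ y₁) (LR col x₀ x₁ y₀ y₁)) ∧
  (y₁ - y₀ ≤ k * (x₁ - x₀) → c ≤ pr (RF x₀ x₁ y₀ y₁) (BT col x₀ x₁ y₀ y₁))

namespace TubeP

theorem incD_LR (c x₀ x₁ y₀ y₁ : ℤ) : IncD (parD c) (LR c x₀ x₁ y₀ y₁) := by
  rintro ω ω' h ⟨u, v, h1, h2, h3, h4, h5, h6⟩
  exact ⟨u, v, h1, h2, h3, h4, h5, incD_conn c _ h5 ω ω' h h6⟩

theorem incD_BT (c x₀ x₁ y₀ y₁ : ℤ) : IncD (parD c) (BT c x₀ x₁ y₀ y₁) := by
  rintro ω ω' h ⟨u, v, h1, h2, h3, h4, h5, h6⟩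
  exact ⟨u, v, h1, h2, h3, h4, h5, incD_conn c _ h5 ω ω' h h6⟩

theorem incD_perC {c : ℤ} {L : ℕ} (hL : (L : ℤ) % 2 = 0) {X : Set Cfg} (hX : IncD (parD c) X) :
    IncD (parD c) {ω | perC L ω ∈ X} := by
  intro ω ω' h hω
  refine hX _ _ (fun f hf => ?_) hω
  have e : ∀ ζ : Cfg, Perc.flip (parD c) (perC L ζ) f =
      Perc.flip (parD c) ζ (f.1 % (L : ℤ), f.2) := by
    intro ζ
    have e1 : parD c f = parD c (f.1 % (L : ℤ), f.2) := by
      have h1 : f.1 % (L : ℤ) = f.1 - L * (f.1 / L) := Int.emod_def _ _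
      have h2 : ((L : ℤ) * (f.1 / L)) % 2 = 0 := by
        rw [Int.mul_emod, hL, zero_mul, Int.zero_emod]
      have h3 : (f.1 + f.2 - c) % 2 = (f.1 % (L : ℤ) + f.2 - c) % 2 := by
        rw [h1]
        omega
      simp only [parD]
      rw [h3]
    show xor (parD c f) (perC L ζ f) = xor (parD c (f.1 % (L : ℤ), f.2)) (ζ (f.1 % (L : ℤ), f.2))
    rw [e1]
    rfl
  rw [e] at hf ⊢
  exact h _ hf

theorem depOn_perC {L : ℕ} {Q S : Set (ℤ × ℤ)} (hQ : ∀ f ∈ Q, (f.1 % (L : ℤ), f.2) ∈ S)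
    {X : Set Cfg} (hX : DepOn Q X) : DepOn S {ω | perC L ω ∈ X} :=
  fun _ _ h => hX _ _ fun f hf => h _ (hQ f hf)

theorem pr_univ (S : Finset (ℤ × ℤ)) : pr S Set.univ = 1 := by
  have h := pr_compl S ∅
  have h0 : pr S ∅ = 0 := by
    unfold pr
    simp
  rw [Set.compl_empty, h0, sub_zero] at h
  exact h

theorem harris_list {D : ℤ × ℤ → Bool} {S : Finset (ℤ × ℤ)} {c' : ℝ} (hc : 0 ≤ c')
    (l : List (Set Cfg)) (h : ∀ A ∈ l, DepOn S A ∧ IncD D A ∧ c' ≤ pr S A) :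
    c' ^ l.length ≤ pr S {ω | ∀ A ∈ l, ω ∈ A} := by
  induction l with
  | nil =>
    have e : {ω : Cfg | ∀ A ∈ ([] : List (Set Cfg)), ω ∈ A} = Set.univ := by
      ext ω
      simp
    rw [e, pr_univ]
    simp
  | cons B l ih =>
    have ih' := ih fun A hA => h A (List.mem_cons_of_mem _ hA)
    obtain ⟨b1, b2, b3⟩ := h B List.mem_cons_self
    have e : {ω : Cfg | ∀ A ∈ B :: l, ω ∈ A} = B ∩ {ω | ∀ A ∈ l, ω ∈ A} := by
      ext ω
      simp
    have d1 : DepOn S {ω : Cfg | ∀ A ∈ l, ω ∈ A} := by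
      intro ω ω' hω
      exact forall₂_congr fun A hA => (h A (List.mem_cons_of_mem _ hA)).1 ω ω' hω
    have d2 : IncD D {ω : Cfg | ∀ A ∈ l, ω ∈ A} := by
      intro ω ω' hω hA A hA'
      exact (h A (List.mem_cons_of_mem _ hA')).2.1 ω ω' hω (hA A hA')
    rw [e]
    refine le_trans ?_ (harris D b1 d1 b2 d2)
    rw [List.length_cons, pow_succ, mul_comm]
    exact mul_le_mul b3 ih' (pow_nonneg hc _) (pr_nonneg _ _)

theorem depOn_list {S : Finset (ℤ × ℤ)} (l : List (Set Cfg)) (h : ∀ A ∈ l, DepOn S A) :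
    DepOn S {ω : Cfg | ∀ A ∈ l, ω ∈ A} := by
  intro ω ω' hω
  exact forall₂_congr fun A hA => h A hA ω ω' hω

section

variable {k : ℕ} {c' : ℝ} {L : ℕ} {H : ℤ} {S : Finset (ℤ × ℤ)} {col x₀ x₁ y₀ y₁ : ℤ}

/-- The three properties used of an event. -/
def Good (S : Finset (ℤ × ℤ)) (col : ℤ) (c' : ℝ) (A : Set Cfg) : Prop :=
  DepOn S A ∧ IncD (parD col) A ∧ c' ≤ pr S A

theorem good_LR
    (hc' : ∀ col x₀ x₁ y₀ y₁ : ℤ, x₀ < x₁ → y₀ < y₁ →
      (x₁ - x₀ ≤ k * (y₁ - y₀) → c' ≤ pr (RF x₀ x₁ y₀ y₁) (LR col x₀ x₁ y₀ y₁)) ∧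
      (y₁ - y₀ ≤ k * (x₁ - x₀) → c' ≤ pr (RF x₀ x₁ y₀ y₁) (BT col x₀ x₁ y₀ y₁)))
    (hL0 : 0 < L) (hL2 : (L : ℤ) % 2 = 0) (hS : S ⊆ RF 0 L (-H) H)
    (hx : x₀ < x₁) (hy : y₀ < y₁) (hxL : x₁ - x₀ ≤ L) (hy0 : -H ≤ y₀) (hy1 : y₁ ≤ H)
    (hSf : ∀ f : ℤ × ℤ, x₀ ≤ f.1 → f.1 < x₁ → y₀ ≤ f.2 → f.2 < y₁ →
      (f.1 % (L : ℤ), f.2) ∈ S) (hk : x₁ - x₀ ≤ k * (y₁ - y₀)) :
    Good S col c' {ω | perC L ω ∈ LR col x₀ x₁ y₀ y₁} := by
  have hd : DepOn S {ω | perC L ω ∈ LR col x₀ x₁ y₀ y₁} := by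
    refine depOn_perC (fun f hf => ?_) (depOn_LR col x₀ x₁ y₀ y₁)
    simp only [RF, coe_product, Set.mem_prod, coe_Ico, Set.mem_Ico] at hf
    exact_mod_cast hSf f hf.1.1 hf.1.2 hf.2.1 hf.2.2
  refine ⟨hd, incD_perC hL2 (incD_LR _ _ _ _ _), ?_⟩
  rw [← pr_eq_of_depOn hd hS, pr_perC hL0 (a := x₀) (G := RF x₀ x₁ y₀ y₁) ?_ (depOn_LR _ _ _ _ _)]
  · exact (hc' col x₀ x₁ y₀ y₁ hx hy).1 hk
  · intro f hf
    simp only [RF, mem_product, mem_Ico] at hf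
    omega

theorem good_BT
    (hc' : ∀ col x₀ x₁ y₀ y₁ : ℤ, x₀ < x₁ → y₀ < y₁ →
      (x₁ - x₀ ≤ k * (y₁ - y₀) → c' ≤ pr (RF x₀ x₁ y₀ y₁) (LR col x₀ x₁ y₀ y₁)) ∧
      (y₁ - y₀ ≤ k * (x₁ - x₀) → c' ≤ pr (RF x₀ x₁ y₀ y₁) (BT col x₀ x₁ y₀ y₁)))
    (hL0 : 0 < L) (hL2 : (L : ℤ) % 2 = 0) (hS : S ⊆ RF 0 L (-H) H)
    (hx : x₀ < x₁) (hy : y₀ < y₁) (hxL : x₁ - x₀ ≤ L) (hy0 : -H ≤ y₀) (hy1 : y₁ ≤ H)
    (hSf : ∀ f : ℤ × ℤ, x₀ ≤ f.1 → f.1 < x₁ → y₀ ≤ f.2 → f.2 < y₁ →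
      (f.1 % (L : ℤ), f.2) ∈ S) (hk : y₁ - y₀ ≤ k * (x₁ - x₀)) :
    Good S col c' {ω | perC L ω ∈ BT col x₀ x₁ y₀ y₁} := by
  have hd : DepOn S {ω | perC L ω ∈ BT col x₀ x₁ y₀ y₁} := by
    refine depOn_perC (fun f hf => ?_) (depOn_BT col x₀ x₁ y₀ y₁)
    simp only [RF, coe_product, Set.mem_prod, coe_Ico, Set.mem_Ico] at hf
    exact_mod_cast hSf f hf.1.1 hf.1.2 hf.2.1 hf.2.2
  refine ⟨hd, incD_perC hL2 (incD_BT _ _ _ _ _), ?_⟩
  rw [← pr_eq_of_depOn hd hS, pr_perC hL0 (a := x₀) (G := RF x₀ x₁ y₀ y₁) ?_ (depOn_BT _ _ _ _ _)]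
  · exact (hc' col x₀ x₁ y₀ y₁ hx hy).2 hk
  · intro f hf
    simp only [RF, mem_product, mem_Ico] at hf
    omega

end

theorem transl_set (x₀ x₁ y₀ y₁ a : ℤ) :
    {f : ℤ × ℤ | (f.1 - a, f.2 - 0) ∈ (RF x₀ x₁ y₀ y₁ : Set (ℤ × ℤ))}
      = (RF (x₀ + a) (x₁ + a) y₀ y₁ : Set (ℤ × ℤ)) := by
  ext f
  simp only [RF, coe_product, Set.mem_prod, coe_Ico, Set.mem_Ico, Set.mem_ofPred_eq]
  omega

theorem LR_transl {η : Cfg} {c x₀ x₁ y₀ y₁ a : ℤ} (ha : a % 2 = 0) (hη : shiftC a 0 η = η)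
    (h : η ∈ LR c x₀ x₁ y₀ y₁) : η ∈ LR c (x₀ + a) (x₁ + a) y₀ y₁ := by
  obtain ⟨u, v, h1, h2, h3, h4, h5, h6⟩ := h
  have ht := (conn_shift a 0 η (RF x₀ x₁ y₀ y₁) u v).mp (by rw [hη]; exact h6)
  rw [transl_set] at ht
  refine ⟨(u.1 + a, u.2 + 0), (v.1 + a, v.2 + 0), ?_, ?_, ?_, ?_, ?_, ht⟩ <;>
    simp only <;> omega

theorem BT_transl {η : Cfg} {c x₀ x₁ y₀ y₁ a : ℤ} (ha : a % 2 = 0) (hη : shiftC a 0 η = η)
    (h : η ∈ BT c x₀ x₁ y₀ y₁) : η ∈ BT c (x₀ + a) (x₁ + a) y₀ y₁ := by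
  obtain ⟨u, v, h1, h2, h3, h4, h5, h6⟩ := h
  have ht := (conn_shift a 0 η (RF x₀ x₁ y₀ y₁) u v).mp (by rw [hη]; exact h6)
  rw [transl_set] at ht
  refine ⟨(u.1 + a, u.2 + 0), (v.1 + a, v.2 + 0), ?_, ?_, ?_, ?_, ?_, ht⟩ <;>
    simp only <;> omega

theorem shift_perC (R : ℕ) (q : ℤ) (ξ : Cfg) :
    shiftC (16 * R * q) 0 (perC (16 * R) ξ) = perC (16 * R) ξ := by
  funext f
  simp only [shiftC, perC]
  push_cast
  rw [add_zero, Int.add_mul_emod_self_left]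

/-- The 16 crossings of the ring. -/
def ringL (R : ℕ) (c y₀ y₁ : ℤ) : List (Set Cfg) :=
  (List.range 8).map (fun i : ℕ => {ω : Cfg | perC (16 * R) ω ∈
    LR c (2 * R * i) (2 * R * i + 4 * R) y₀ y₁}) ++
  (List.range 8).map (fun i : ℕ => {ω : Cfg | perC (16 * R) ω ∈
    BT c (2 * R * i + 2 * R) (2 * R * i + 4 * R) y₀ y₁})

theorem ringL_length (R : ℕ) (c y₀ y₁ : ℤ) : (ringL R c y₀ y₁).length = 16 := by
  simp [ringL]

theorem ring_of_ringL {R : ℕ} {c y₀ y₁ : ℤ} {ξ : Cfg} (h : ∀ A ∈ ringL R c y₀ y₁, ξ ∈ A) :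
    perC (16 * R) ξ ∈ RingE R c y₀ y₁ := by
  intro i
  have hi0 : 0 ≤ i % 8 := Int.emod_nonneg _ (by norm_num)
  have hi8 : i % 8 < 8 := Int.emod_lt_of_pos _ (by norm_num)
  obtain ⟨j, hj⟩ := Int.eq_ofNat_of_zero_le hi0
  have hj8 : j < 8 := by omega
  have hij : i = j + 8 * (i / 8) := by
    have := Int.emod_add_mul_ediv i 8
    omega
  have h1 : ξ ∈ {ω : Cfg | perC (16 * R) ω ∈ LR c (2 * R * j) (2 * R * j + 4 * R) y₀ y₁} :=
    h _ (List.mem_append_left _ (List.mem_map.mpr ⟨j, List.mem_range.mpr hj8, rfl⟩))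
  have h2 : ξ ∈ {ω : Cfg | perC (16 * R) ω ∈ BT c (2 * R * j + 2 * R) (2 * R * j + 4 * R) y₀ y₁} :=
    h _ (List.mem_append_right _ (List.mem_map.mpr ⟨j, List.mem_range.mpr hj8, rfl⟩))
  have hpar : (16 * (R : ℤ) * (i / 8)) % 2 = 0 := by
    have : 16 * (R : ℤ) * (i / 8) = 2 * (8 * R * (i / 8)) := by ring
    rw [this]
    exact Int.mul_emod_right _ _
  have e1 : 2 * (R : ℤ) * i = 2 * R * j + 16 * R * (i / 8) := by
    conv_lhs => rw [hij]
    ring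
  have t1 := LR_transl hpar (shift_perC R (i / 8) ξ) h1
  have t2 := BT_transl hpar (shift_perC R (i / 8) ξ) h2
  constructor
  · rw [e1]
    have e2 : 2 * (R : ℤ) * j + 16 * R * (i / 8) + 4 * R = 2 * R * j + 4 * R + 16 * R * (i / 8) := by
      ring
    rw [e2]
    exact t1
  · rw [e1]
    have e2 : 2 * (R : ℤ) * j + 16 * R * (i / 8) + 4 * R = 2 * R * j + 4 * R + 16 * R * (i / 8) := by
      ring
    have e3 : 2 * (R : ℤ) * j + 16 * R * (i / 8) + 2 * R = 2 * R * j + 2 * R + 16 * R * (i / 8) := by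
      ring
    rw [e2, e3]
    exact t2

end TubeP

open TubeP

theorem tube_prob (hrsw : Rsw) (M : ℕ) : ∃ c₀ : ℝ, 0 < c₀ ∧ ∀ r R : ℕ, 1 ≤ r → 8 * r ≤ R →
    R ≤ 16 * M * r → ∀ h c : ℤ, -(R : ℤ) ≤ h → h < R →
    c₀ ≤ pr (RF 0 ((16 * R : ℕ) : ℤ) (-(4 * R)) (4 * R))
      {ξ | perC (16 * R) ξ ∈ TubeE R r h c} := by
  classical
  obtain ⟨c', hc'0, hc'⟩ := hrsw (64 * M + 10)
  refine ⟨c' ^ 20 * c' ^ 20, by positivity, ?_⟩
  intro r R hr hrR hRM h c h1 h2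
  have hr' : (1 : ℤ) ≤ r := by exact_mod_cast hr
  have hrR' : 8 * (r : ℤ) ≤ R := by exact_mod_cast hrR
  have hRM' : (R : ℤ) ≤ 16 * (M * r) := by
    have : (R : ℤ) ≤ ((16 * M * r : ℕ) : ℤ) := by exact_mod_cast hRM
    push_cast at this
    linarith
  have hMr : 0 ≤ (M : ℤ) * r := by positivity
  have hL0 : 0 < 16 * R := by omega
  have hL2 : (((16 * R : ℕ) : ℤ)) % 2 = 0 := by push_cast; omega
  set W : Finset (ℤ × ℤ) := RF 0 ((16 * R : ℕ) : ℤ) (-(4 * R)) (4 * R) with hW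
  -- the supports
  set S1 : Finset (ℤ × ℤ) := W.filter fun f =>
    (h - 2 * r ≤ f.2 ∧ f.2 < h + 2 * r ∧ (R : ℤ) - 2 * r ≤ f.1 ∧ f.1 < R + 6 * r) ∨
    (h + r ≤ f.2 ∧ f.2 < 3 * R ∧ (R : ℤ) + 5 * r ≤ f.1 ∧ f.1 < R + 6 * r) ∨
    (2 * R ≤ f.2 ∧ f.2 < 3 * R) with hS1
  set S2 : Finset (ℤ × ℤ) := W.filter fun f =>
    (h + 3 * r ≤ f.2 ∧ f.2 < h + 4 * r ∧ (R : ℤ) - 4 * r ≤ f.1 ∧ f.1 < R) ∨
    (h - 4 * r ≤ f.2 ∧ f.2 < h + 4 * r ∧ (R : ℤ) - 4 * r ≤ f.1 ∧ f.1 < R - 3 * r) ∨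
    (h - 4 * r ≤ f.2 ∧ f.2 < h - 3 * r ∧ (R : ℤ) - 4 * r ≤ f.1 ∧ f.1 < R + 6 * r) ∨
    (-(3 * R) ≤ f.2 ∧ f.2 < h - 3 * r ∧ (R : ℤ) + 5 * r ≤ f.1 ∧ f.1 < R + 6 * r) ∨
    (-(3 * R) ≤ f.2 ∧ f.2 < -(2 * R)) with hS2
  have hS1W : S1 ⊆ W := Finset.filter_subset _ _
  have hS2W : S2 ⊆ W := Finset.filter_subset _ _
  have hdisj : Disjoint S1 S2 := by
    rw [Finset.disjoint_left]
    intro f hf1 hf2
    rw [hS1, Finset.mem_filter] at hf1
    rw [hS2, Finset.mem_filter] at hf2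
    obtain ⟨-, hf1⟩ := hf1
    obtain ⟨-, hf2⟩ := hf2
    omega
  have hmemW : ∀ x y : ℤ, (x, y) ∈ W ↔ (0 ≤ x ∧ x < 16 * R) ∧ -(4 * (R : ℤ)) ≤ y ∧ y < 4 * R := by
    intro x y
    rw [hW]
    simp only [RF, mem_product, mem_Ico]
    push_cast
    rfl
  have hmod : ∀ x : ℤ, 0 ≤ x → x < 16 * R → x % ((16 * R : ℕ) : ℤ) = x := by
    intro x hx0 hx1
    exact Int.emod_eq_of_lt hx0 (by push_cast; exact hx1)
  have hmod2 : ∀ x : ℤ, 0 ≤ x % ((16 * R : ℕ) : ℤ) ∧ x % ((16 * R : ℕ) : ℤ) < 16 * R := by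
    intro x
    refine ⟨Int.emod_nonneg _ (by push_cast; omega), ?_⟩
    have := Int.emod_lt_of_pos x (b := ((16 * R : ℕ) : ℤ)) (by push_cast; omega)
    push_cast at this ⊢
    exact this
  -- the lists of crossings
  set l1 : List (Set Cfg) := [{ω : Cfg | perC (16 * R) ω ∈ LR c (R - 2 * r) R (h - 2 * r) (h - r)},
    {ω : Cfg | perC (16 * R) ω ∈ BT c (R - 2 * r) (R - r) (h - 2 * r) (h + 2 * r)},
    {ω : Cfg | perC (16 * R) ω ∈ LR c (R - 2 * r) (R + 6 * r) (h + r) (h + 2 * r)},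
    {ω : Cfg | perC (16 * R) ω ∈ BT c (R + 5 * r) (R + 6 * r) (h + r) (3 * R)}] ++
    ringL R c (2 * R) (3 * R) with hl1
  set l2 : List (Set Cfg) := [{ω : Cfg | perC (16 * R) ω ∈
      LR (c + 1) (R - 4 * r) R (h + 3 * r) (h + 4 * r)},
    {ω : Cfg | perC (16 * R) ω ∈ BT (c + 1) (R - 4 * r) (R - 3 * r) (h - 4 * r) (h + 4 * r)},
    {ω : Cfg | perC (16 * R) ω ∈ LR (c + 1) (R - 4 * r) (R + 6 * r) (h - 4 * r) (h - 3 * r)},
    {ω : Cfg | perC (16 * R) ω ∈ BT (c + 1) (R + 5 * r) (R + 6 * r) (-(3 * R)) (h - 3 * r)}] ++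
    ringL R (c + 1) (-(3 * R)) (-(2 * R)) with hl2
  have hk : ((64 * M + 10 : ℕ) : ℤ) * r = 64 * (M * r) + 10 * r := by push_cast; ring
  have hring1 : ∀ A ∈ ringL R c (2 * R) (3 * R), Good S1 c c' A := by
    intro A hA
    rcases List.mem_append.mp hA with hA | hA
    · obtain ⟨i, -, rfl⟩ := List.mem_map.mp hA
      refine good_LR (H := 4 * R) hc' hL0 hL2 hS1W (by omega) (by omega) (by push_cast; omega)
        (by omega) (by omega) ?_ ?_
      · intro f _ _ f3 f4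
        rw [hS1, Finset.mem_filter, hmemW]
        exact ⟨⟨hmod2 f.1, by omega, by omega⟩, Or.inr (Or.inr ⟨f3, f4⟩)⟩
      · push_cast
        nlinarith
    · obtain ⟨i, -, rfl⟩ := List.mem_map.mp hA
      refine good_BT (H := 4 * R) hc' hL0 hL2 hS1W (by omega) (by omega) (by push_cast; omega)
        (by omega) (by omega) ?_ ?_
      · intro f _ _ f3 f4
        rw [hS1, Finset.mem_filter, hmemW]
        exact ⟨⟨hmod2 f.1, by omega, by omega⟩, Or.inr (Or.inr ⟨f3, f4⟩)⟩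
      · push_cast
        nlinarith
  have hring2 : ∀ A ∈ ringL R (c + 1) (-(3 * R)) (-(2 * R)), Good S2 (c + 1) c' A := by
    intro A hA
    rcases List.mem_append.mp hA with hA | hA
    · obtain ⟨i, -, rfl⟩ := List.mem_map.mp hA
      refine good_LR (H := 4 * R) hc' hL0 hL2 hS2W (by omega) (by omega) (by push_cast; omega)
        (by omega) (by omega) ?_ ?_
      · intro f _ _ f3 f4
        rw [hS2, Finset.mem_filter, hmemW]
        exact ⟨⟨hmod2 f.1, by omega, by omega⟩, Or.inr (Or.inr (Or.inr (Or.inr ⟨f3, f4⟩)))⟩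
      · push_cast
        nlinarith
    · obtain ⟨i, -, rfl⟩ := List.mem_map.mp hA
      refine good_BT (H := 4 * R) hc' hL0 hL2 hS2W (by omega) (by omega) (by push_cast; omega)
        (by omega) (by omega) ?_ ?_
      · intro f _ _ f3 f4
        rw [hS2, Finset.mem_filter, hmemW]
        exact ⟨⟨hmod2 f.1, by omega, by omega⟩, Or.inr (Or.inr (Or.inr (Or.inr ⟨f3, f4⟩)))⟩
      · push_cast
        nlinarith
  have hg1 : ∀ A ∈ l1, Good S1 c c' A := by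
    intro A hA
    rw [hl1] at hA
    rcases List.mem_append.mp hA with hA | hA
    · simp only [List.mem_cons, List.not_mem_nil, or_false] at hA
      rcases hA with rfl | rfl | rfl | rfl
      · refine good_LR (H := 4 * R) hc' hL0 hL2 hS1W (by omega) (by omega) (by push_cast; omega)
          (by omega) (by omega) ?_ ?_
        · intro f f1 f2 f3 f4
          rw [hmod f.1 (by omega) (by omega), hS1, Finset.mem_filter, hmemW]
          simp only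
          omega
        · have e : (h - r) - (h - 2 * r) = (r : ℤ) := by ring
          rw [e, hk]; omega
      · refine good_BT (H := 4 * R) hc' hL0 hL2 hS1W (by omega) (by omega) (by push_cast; omega)
          (by omega) (by omega) ?_ ?_
        · intro f f1 f2 f3 f4
          rw [hmod f.1 (by omega) (by omega), hS1, Finset.mem_filter, hmemW]
          simp only
          omega
        · have e : ((R : ℤ) - r) - (R - 2 * r) = (r : ℤ) := by ring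
          rw [e, hk]; omega
      · refine good_LR (H := 4 * R) hc' hL0 hL2 hS1W (by omega) (by omega) (by push_cast; omega)
          (by omega) (by omega) ?_ ?_
        · intro f f1 f2 f3 f4
          rw [hmod f.1 (by omega) (by omega), hS1, Finset.mem_filter, hmemW]
          simp only
          omega
        · have e : (h + 2 * r) - (h + r) = (r : ℤ) := by ring
          rw [e, hk]; omega
      · refine good_BT (H := 4 * R) hc' hL0 hL2 hS1W (by omega) (by omega) (by push_cast; omega)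
          (by omega) (by omega) ?_ ?_
        · intro f f1 f2 f3 f4
          rw [hmod f.1 (by omega) (by omega), hS1, Finset.mem_filter, hmemW]
          simp only
          omega
        · have e : ((R : ℤ) + 6 * r) - (R + 5 * r) = (r : ℤ) := by ring
          rw [e, hk]; omega
    · exact hring1 A hA
  have hg2 : ∀ A ∈ l2, Good S2 (c + 1) c' A := by
    intro A hA
    rw [hl2] at hA
    rcases List.mem_append.mp hA with hA | hA
    · simp only [List.mem_cons, List.not_mem_nil, or_false] at hA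
      rcases hA with rfl | rfl | rfl | rfl
      · refine good_LR (H := 4 * R) hc' hL0 hL2 hS2W (by omega) (by omega) (by push_cast; omega)
          (by omega) (by omega) ?_ ?_
        · intro f f1 f2 f3 f4
          rw [hmod f.1 (by omega) (by omega), hS2, Finset.mem_filter, hmemW]
          simp only
          omega
        · have e : (h + 4 * r) - (h + 3 * r) = (r : ℤ) := by ring
          rw [e, hk]; omega
      · refine good_BT (H := 4 * R) hc' hL0 hL2 hS2W (by omega) (by omega) (by push_cast; omega)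
          (by omega) (by omega) ?_ ?_
        · intro f f1 f2 f3 f4
          rw [hmod f.1 (by omega) (by omega), hS2, Finset.mem_filter, hmemW]
          simp only
          omega
        · have e : ((R : ℤ) - 3 * r) - (R - 4 * r) = (r : ℤ) := by ring
          rw [e, hk]; omega
      · refine good_LR (H := 4 * R) hc' hL0 hL2 hS2W (by omega) (by omega) (by push_cast; omega)
          (by omega) (by omega) ?_ ?_
        · intro f f1 f2 f3 f4
          rw [hmod f.1 (by omega) (by omega), hS2, Finset.mem_filter, hmemW]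
          simp only
          omega
        · have e : (h - 3 * r) - (h - 4 * r) = (r : ℤ) := by ring
          rw [e, hk]; omega
      · refine good_BT (H := 4 * R) hc' hL0 hL2 hS2W (by omega) (by omega) (by push_cast; omega)
          (by omega) (by omega) ?_ ?_
        · intro f f1 f2 f3 f4
          rw [hmod f.1 (by omega) (by omega), hS2, Finset.mem_filter, hmemW]
          simp only
          omega
        · have e : ((R : ℤ) + 6 * r) - (R + 5 * r) = (r : ℤ) := by ring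
          rw [e, hk]; omega
    · exact hring2 A hA
  have len1 : l1.length = 20 := by
    rw [hl1, List.length_append, ringL_length]; rfl
  have len2 : l2.length = 20 := by
    rw [hl2, List.length_append, ringL_length]; rfl
  have p1 := harris_list hc'0.le l1 hg1
  have p2 := harris_list hc'0.le l2 hg2
  rw [len1] at p1
  rw [len2] at p2
  have d1 := depOn_list l1 fun A hA => (hg1 A hA).1
  have d2 := depOn_list l2 fun A hA => (hg2 A hA).1
  have hind := pr_inter_of_disjoint d1 d2 hdisj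
  have hdep : DepOn ((S1 ∪ S2 : Finset (ℤ × ℤ)) : Set (ℤ × ℤ))
      ({ω : Cfg | ∀ A ∈ l1, ω ∈ A} ∩ {ω : Cfg | ∀ A ∈ l2, ω ∈ A}) := by
    intro ω ω' hω
    rw [Finset.coe_union] at hω
    exact and_congr (d1 ω ω' fun f hf => hω f (Or.inl hf)) (d2 ω ω' fun f hf => hω f (Or.inr hf))
  have hW' := pr_eq_of_depOn hdep (Finset.union_subset hS1W hS2W)
  calc c' ^ 20 * c' ^ 20 ≤ pr S1 {ω : Cfg | ∀ A ∈ l1, ω ∈ A} * pr S2 {ω : Cfg | ∀ A ∈ l2, ω ∈ A} :=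
        mul_le_mul p1 p2 (by positivity) (pr_nonneg _ _)
    _ = pr W ({ω : Cfg | ∀ A ∈ l1, ω ∈ A} ∩ {ω : Cfg | ∀ A ∈ l2, ω ∈ A}) := by
        rw [hW', hind]
    _ ≤ pr W {ξ | perC (16 * R) ξ ∈ TubeE R r h c} := by
        refine pr_mono W ?_
        rintro ω ⟨ω1, ω2⟩
        have ω1' : ∀ A ∈ l1, ω ∈ A := ω1
        have ω2' : ∀ A ∈ l2, ω ∈ A := ω2
        rw [hl1, List.forall_mem_append, List.forall_mem_cons, List.forall_mem_cons,
          List.forall_mem_cons, List.forall_mem_cons] at ω1'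
        rw [hl2, List.forall_mem_append, List.forall_mem_cons, List.forall_mem_cons,
          List.forall_mem_cons, List.forall_mem_cons] at ω2'
        obtain ⟨⟨a1, a2, a3, a4, -⟩, q1⟩ := ω1'
        obtain ⟨⟨b1, b2, b3, b4, -⟩, q2⟩ := ω2'
        exact ⟨⟨⟨a1, a2, a3, a4⟩, ring_of_ringL q1⟩, ⟨b1, b2, b3, b4⟩, ring_of_ringL q2⟩

end Pool.Agent.PercT
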