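import Pool.Agent.Lib.MP_6bd702_percu2.Glue
import Pool.Agent.Lib.MP_6bd702_percu2.TubeP

/-!
# Gluing, probability (task T_GlueP)
-/

set_option autoImplicit false

namespace Pool.Agent.PercT

open Finset Pool.Agent.Perc

theorem depOn_SepR (R g h : ℤ) (e : UE) :
    DepOn (RF (-R) R (-R) R : Set (ℤ × ℤ)) (SepR R g h e) := by
  intro ω ω' hω
  have hM : MM ω' (RF (-R) R (-R) R) e = MM ω (RF (-R) R (-R) R) e :=
    MM_stop fun f hf => hω f hf.1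
  unfold SepR
  simp only [Set.mem_ofPred_eq, hM]

theorem glue_prob (hrsw : Rsw) (M : ℕ) : ∃ C : ℝ, 0 < C ∧ ∀ r R : ℕ, 1 ≤ r → 8 * r ≤ R →
    R ≤ 16 * M * r → ∀ e : UE, InB R e →
    pr (RF (-R) R (-R) R) {ω | ∃ h, ω ∈ SepR R (8 * r) h e} ≤
      C * pr (RF 0 ((16 * R : ℕ) : ℤ) (-(4 * R)) (4 * R)) (Wrap (16 * R) (4 * R) e) := by
  classical
  obtain ⟨c₀, hc₀, htube⟩ := tube_prob hrsw M
  refine ⟨c₀⁻¹, inv_pos.2 hc₀, fun r R hr hrR hRM e he => ?_⟩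
  have hR : 0 < R := by omega
  have hA : DepOn (RF (-R : ℤ) R (-R) R : Set (ℤ × ℤ)) {ω | ∃ h, ω ∈ SepR R (8 * r) h e} := by
    intro ω ω' hω
    constructor
    · rintro ⟨h, hh⟩
      exact ⟨h, (depOn_SepR _ _ h e ω ω' hω).1 hh⟩
    · rintro ⟨h, hh⟩
      exact ⟨h, (depOn_SepR _ _ h e ω ω' hω).2 hh⟩
  have h1 := pr_perC (L := 16 * R) (H := 4 * (R : ℤ)) (by omega) (a := -(R : ℤ))
    (G := RF (-R : ℤ) R (-R) R) (by
      intro f hf
      simp only [RF, mem_product, mem_Ico] at hf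
      push_cast
      omega) hA
  have h2 := pr_mix_perC (L := 16 * R) (H := 4 * (R : ℤ))
    (S := fun ω => SS ω (RF (-R : ℤ) R (-R) R) e)
    (fun ω ω' h => SS_stop h) {ω | ∃ h, ω ∈ SepR R (8 * r) h e}
    (fun ω => {ξ | ∃ h : ℤ, perC (16 * R) ω ∈ SepR R (8 * r) h e ∧
      perC (16 * R) ξ ∈ TubeE R r h (R + h + 1)})
    (Wrap (16 * R) (4 * R) e) (c := c₀) (by
      rintro ω ⟨h, hh⟩
      refine (htube r R hr hrR hRM h (R + h + 1) hh.1 hh.2.1).trans ?_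
      exact pr_mono _ fun ξ hξ => ⟨h, hh, hξ⟩) (by
      rintro ω - ξ ⟨h, hh, hξ⟩
      exact glue_det hr hrR (by omega) he hh hξ)
  rw [h1] at h2
  rw [inv_mul_eq_div, le_div_iff₀ hc₀, mul_comm]
  exact h2

end Pool.Agent.PercT
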