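import Pool.Agent.Lib.MP_6bd702_percu2.Tip
import Pool.Agent.Lib.MP_6bd702_percu2.Cross

/-!
# The two turns at the tip (task T_Turn)
-/

set_option autoImplicit false

namespace Pool.Agent.PercT

open Finset Pool.Agent.Perc

variable {R r h c : ℤ} {ω ξ ζ : Cfg} {e : UE} {p : ℤ × ℤ}

namespace Turn

theorem mem_RF {x₀ x₁ y₀ y₁ : ℤ} {f : ℤ × ℤ} :
    f ∈ (RF x₀ x₁ y₀ y₁ : Set (ℤ × ℤ)) ↔ x₀ ≤ f.1 ∧ f.1 < x₁ ∧ y₀ ≤ f.2 ∧ f.2 < y₁ := by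
  simp only [RF, coe_product, Set.mem_prod, coe_Ico, Set.mem_Ico]
  tauto

theorem par_eq {a b c : ℤ} (h : (a - c) % 2 = 0) (h' : (b - c) % 2 = 0) : a % 2 = b % 2 := by
  omega

theorem par_end {a b x y z w c : ℤ} (h : (a + b - c) % 2 = 0) (h' : (x + y - c) % 2 = 0)
    (h2 : (x + y) % 2 = (z + w) % 2) : (a + b - z - w) % 2 = 0 := by
  omega

theorem par_tip {a b R k c : ℤ} (h : (a + b - c) % 2 = 0) (h' : (R + k - c) % 2 = 0) :
    (a + b - R - k) % 2 = 0 := by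
  omega

theorem SS_sub {F : Set (ℤ × ℤ)} {f : ℤ × ℤ} (hf : f ∈ SS ω F e) : f ∈ F := hf.1

/-- Landing and prolongation: `z₀` is on the wrong side, `z₁` on the right side of the tip. -/
theorem land (he : InB R e) (hp : p = ua e ∨ p = ub e)
    (hS : ∀ f ∈ SS ω (RF (-R) R (-R) R) e, ζ f = ω f)
    {F₁ F₂ F₃ F₄ : Set (ℤ × ℤ)} {z₀ w₁ w₂ z₁ u : ℤ × ℤ}
    (hG : ∀ f ∈ F₁ ∪ F₂ ∪ F₃, f ∉ SS ω (RF (-R) R (-R) R) e → ζ f = ξ f ∧ ¬ Bad ω R e f)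
    (hG4 : ∀ f ∈ F₄, ζ f = ξ f)
    (hpar : (p.1 + p.2 - z₀.1 - z₀.2) % 2 = 0)
    (h0 : potC ω R e z₀ ≠ potC ω R e p) (h1 : potC ω R e z₁ = potC ω R e p)
    (c1 : Conn ξ F₁ z₀ w₁) (c2 : Conn ξ F₂ w₁ w₂) (c3 : Conn ξ F₃ w₂ z₁) (c4 : Conn ξ F₄ z₁ u)
    {T : Set (ℤ × ℤ)} (hT0 : (RF (-R) R (-R) R : Set (ℤ × ℤ)) ⊆ T) (hT : F₁ ∪ F₂ ∪ F₃ ⊆ T)
    (hT4 : F₄ ⊆ T) : Conn ζ T p u := by
  have cc : Conn ξ (F₁ ∪ F₂ ∪ F₃) z₀ z₁ := by
    refine Relation.ReflTransGen.trans (Conn.mono ?_ c1)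
      (Relation.ReflTransGen.trans (Conn.mono ?_ c2) (Conn.mono ?_ c3))
    · exact fun f hf => Or.inl (Or.inl hf)
    · exact fun f hf => Or.inl (Or.inr hf)
    · exact fun f hf => Or.inr hf
  have h := tip_conn he hp hS hG hpar h0 h1 cc
  refine Relation.ReflTransGen.trans (Conn.mono ?_ h) (Conn.mono hT4
    (GridA.conn_congr F₄ (fun f hf => (hG4 f hf).symm) c4))
  rintro f (hf | hf)
  · exact hT0 (SS_sub hf)
  · exact hT hf

end Turn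

/-- The colour of the upper end of the tip. -/
theorem turnA (hr : 1 ≤ r) (hrR : 8 * r ≤ R) (he : InB R e) (hp : p = ua e ∨ p = ub e)
    (hω : ω ∈ SepR R (8 * r) h e) (hc : (R + h + 1 - c) % 2 = 0) (hpc : (p.1 + p.2 - c) % 2 = 0)
    (hξ : ξ ∈ TubeA R r h c) (hS : ∀ f ∈ SS ω (RF (-R) R (-R) R) e, ζ f = ω f)
    (hG : ∀ f ∉ SS ω (RF (-R) R (-R) R) e, R - 4 * r ≤ f.1 → f.1 < R + 6 * r → ζ f = ξ f) :
    ∃ u v : ℤ × ℤ, u.2 = h + r ∧ R + 5 * r ≤ u.1 ∧ u.1 ≤ R + 6 * r ∧ v.2 = 3 * R ∧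
      (u.1 + u.2 - c) % 2 = 0 ∧
      Conn ζ (RF (R + 5 * r) (R + 6 * r) (h + r) (3 * R)) u v ∧ Conn ζ (stripZ (4 * R)) p u := by
  obtain ⟨⟨u1, v1, a1, a2, a3, a4, a5, P1⟩, ⟨u2, v2, b1, b2, b3, b4, b5, P2⟩,
    ⟨u3, v3, d1, d2, d3, d4, d5, P3⟩, ⟨u4, v4, e1, e2, e3, e4, e5, P4⟩⟩ := hξ
  have hR : 0 < R := by linarith
  obtain ⟨hh1, hh2, htip, -⟩ := id hω
  obtain ⟨w1, -, -, -, -, q1, q2⟩ := cross_meet (x₀ := R - 2 * r) (x₁ := R) (y₀ := h - 2 * r)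
    (y₁ := h - r) (x₀' := R - 2 * r) (x₁' := R - r) (y₀' := h - 2 * r) (y₁' := h + 2 * r)
    (by linarith) (by linarith) (by linarith) (by linarith) (by linarith) (by linarith) ⟨a1, a2, a3⟩ a4
    ⟨b1, b2, b3⟩ b4 (Turn.par_eq a5 b5) P1 P2
  obtain ⟨w2, -, -, -, -, q3, q4⟩ := cross_meet (x₀ := R - 2 * r) (x₁ := R + 6 * r) (y₀ := h + r)
    (y₁ := h + 2 * r) (x₀' := R - 2 * r) (x₁' := R - r) (y₀' := h - 2 * r) (y₁' := h + 2 * r)
    (by linarith) (by linarith) (by linarith) (by linarith) (by linarith) (by linarith) ⟨d1, d2, d3⟩ d4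
    ⟨b1, b2, b3⟩ b4 (Turn.par_eq d5 b5) P3 P2
  obtain ⟨z1, g1, g2, g3, g4, q5, q6⟩ := cross_meet (x₀ := R - 2 * r) (x₁ := R + 6 * r)
    (y₀ := h + r) (y₁ := h + 2 * r) (x₀' := R + 5 * r) (x₁' := R + 6 * r) (y₀' := h + r)
    (y₁' := 3 * R)
    (by linarith) (by linarith) (by linarith) (by linarith) (by linarith) (by linarith) ⟨d1, d2, d3⟩ d4
    ⟨e1, e2, e3⟩ e4 (Turn.par_eq d5 e5) P3 P4
  have hv1 := Conn.mem_rect P1 ⟨a1.ge, by linarith, a2, a3⟩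
  have pv1 := Conn.parity P1
  have z0r := (potC_right (v := v1) hR hω a4.ge).2 (by linarith) (by linarith)
  have z1r := (potC_right (v := z1) hR hω (by linarith)).1 (by linarith) (by linarith)
  have hup : potC ω R e (R, h + 1) = potC ω R e p :=
    potC_of_mem he htip hp (Or.inr (by simp [ub]))
      (Turn.par_tip hpc (by rw [← add_assoc]; exact hc))
  have hne : potC ω R e (R, h) ≠ potC ω R e (R, h + 1) := by
    simpa [ua, ub] using potC_ne he htip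
  have hext : ∀ f ∈ (RF (R + 5 * r) (R + 6 * r) (h + r) (3 * R) : Set (ℤ × ℤ)), ζ f = ξ f := by
    intro f hf
    rw [Turn.mem_RF] at hf
    refine hG f (fun hh => ?_) (by linarith [hf.1]) (by linarith [hf.2.1])
    have := Turn.mem_RF.1 (Turn.SS_sub hh)
    linarith [this.2.1, hf.1]
  refine ⟨u4, v4, e1, e2, e3, e4, e5, GridA.conn_congr _ (fun f hf => (hext f hf).symm) P4, ?_⟩
  refine Turn.land (z₀ := v1) (w₁ := w1) (w₂ := w2) (z₁ := z1) he hp hS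
    (F₁ := RF (R - 2 * r) R (h - 2 * r) (h - r))
    (F₂ := RF (R - 2 * r) (R - r) (h - 2 * r) (h + 2 * r))
    (F₃ := RF (R - 2 * r) (R + 6 * r) (h + r) (h + 2 * r))
    (F₄ := RF (R + 5 * r) (R + 6 * r) (h + r) (3 * R)) ?_ hext ?_ ?_ ?_
    (Relation.ReflTransGen.trans P1.symm q1) (Relation.ReflTransGen.trans q2.symm q4)
    (Relation.ReflTransGen.trans q3.symm q5) q6.symm ?_ ?_ ?_
  · rintro f hf hfS
    have hf' : R - 2 * r ≤ f.1 ∧ f.1 < R + 6 * r ∧ h - 2 * r ≤ f.2 ∧ f.2 < h + 2 * r ∧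
        (f.2 ≠ h ∨ f.1 < R) := by
      clear * - hf hr hrR hh1 hh2
      rcases hf with (hf | hf) | hf <;> rw [Turn.mem_RF] at hf <;> omega
    exact ⟨hG f hfS (by linarith [hf'.1]) (by linarith [hf'.2.1]),
      not_bad_near (g := 8 * r) hR hrR hω (by linarith [hf'.1]) (by linarith [hf'.2.2.1])
        (by linarith [hf'.2.2.2.1]) hf'.2.2.2.2⟩
  · exact Turn.par_end hpc a5 pv1
  · rw [z0r, ← hup]; exact hne
  · rw [z1r, hup]
  · intro f hf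
    rw [Turn.mem_RF] at hf
    simp only [stripZ, Set.mem_ofPred_eq]
    clear * - hf hr hrR hh1 hh2
    omega
  · intro f hf
    simp only [stripZ, Set.mem_ofPred_eq]
    clear * - hf hr hrR hh1 hh2
    rcases hf with (hf | hf) | hf <;> rw [Turn.mem_RF] at hf <;> omega
  · intro f hf
    rw [Turn.mem_RF] at hf
    simp only [stripZ, Set.mem_ofPred_eq]
    clear * - hf hr hrR hh1 hh2
    omega

/-- The colour of the lower end of the tip. -/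
theorem turnB (hr : 1 ≤ r) (hrR : 8 * r ≤ R) (he : InB R e) (hp : p = ua e ∨ p = ub e)
    (hω : ω ∈ SepR R (8 * r) h e) (hc : (R + h - c) % 2 = 0) (hpc : (p.1 + p.2 - c) % 2 = 0)
    (hξ : ξ ∈ TubeB R r h c) (hS : ∀ f ∈ SS ω (RF (-R) R (-R) R) e, ζ f = ω f)
    (hG : ∀ f ∉ SS ω (RF (-R) R (-R) R) e, R - 4 * r ≤ f.1 → f.1 < R + 6 * r → ζ f = ξ f) :
    ∃ u v : ℤ × ℤ, u.2 = -(3 * R) ∧ R + 5 * r ≤ u.1 ∧ u.1 ≤ R + 6 * r ∧ v.2 = h - 3 * r ∧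
      (u.1 + u.2 - c) % 2 = 0 ∧
      Conn ζ (RF (R + 5 * r) (R + 6 * r) (-(3 * R)) (h - 3 * r)) u v ∧
      Conn ζ (stripZ (4 * R)) p u := by
  obtain ⟨⟨u1, v1, a1, a2, a3, a4, a5, P1⟩, ⟨u2, v2, b1, b2, b3, b4, b5, P2⟩,
    ⟨u3, v3, d1, d2, d3, d4, d5, P3⟩, ⟨u4, v4, e1, e2, e3, e4, e5, P4⟩⟩ := hξ
  have hR : 0 < R := by linarith
  obtain ⟨hh1, hh2, htip, -⟩ := id hω
  obtain ⟨w1, -, -, -, -, q1, q2⟩ := cross_meet (x₀ := R - 4 * r) (x₁ := R) (y₀ := h + 3 * r)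
    (y₁ := h + 4 * r) (x₀' := R - 4 * r) (x₁' := R - 3 * r) (y₀' := h - 4 * r) (y₁' := h + 4 * r)
    (by linarith) (by linarith) (by linarith) (by linarith) (by linarith) (by linarith) ⟨a1, a2, a3⟩ a4
    ⟨b1, b2, b3⟩ b4 (Turn.par_eq a5 b5) P1 P2
  obtain ⟨w2, -, -, -, -, q3, q4⟩ := cross_meet (x₀ := R - 4 * r) (x₁ := R + 6 * r)
    (y₀ := h - 4 * r) (y₁ := h - 3 * r) (x₀' := R - 4 * r) (x₁' := R - 3 * r)
    (y₀' := h - 4 * r) (y₁' := h + 4 * r)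
    (by linarith) (by linarith) (by linarith) (by linarith) (by linarith) (by linarith) ⟨d1, d2, d3⟩ d4
    ⟨b1, b2, b3⟩ b4 (Turn.par_eq d5 b5) P3 P2
  obtain ⟨z1, g1, g2, g3, g4, q5, q6⟩ := cross_meet (x₀ := R - 4 * r) (x₁ := R + 6 * r)
    (y₀ := h - 4 * r) (y₁ := h - 3 * r) (x₀' := R + 5 * r) (x₁' := R + 6 * r) (y₀' := -(3 * R))
    (y₁' := h - 3 * r)
    (by linarith) (by linarith) (by linarith) (by linarith) (by linarith) (by linarith) ⟨d1, d2, d3⟩ d4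
    ⟨e1, e2, e3⟩ e4 (Turn.par_eq d5 e5) P3 P4
  have hv1 := Conn.mem_rect P1 ⟨a1.ge, by linarith, a2, a3⟩
  have pv1 := Conn.parity P1
  have z0r := (potC_right (v := v1) hR hω a4.ge).1 (by linarith) (by linarith)
  have z1r := (potC_right (v := z1) hR hω (by linarith)).2 (by linarith) (by linarith)
  have hlo : potC ω R e (R, h) = potC ω R e p :=
    potC_of_mem he htip hp (Or.inl (by simp [ua])) (Turn.par_tip hpc hc)
  have hne : potC ω R e (R, h) ≠ potC ω R e (R, h + 1) := by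
    simpa [ua, ub] using potC_ne he htip
  have hext : ∀ f ∈ (RF (R + 5 * r) (R + 6 * r) (-(3 * R)) (h - 3 * r) : Set (ℤ × ℤ)),
      ζ f = ξ f := by
    intro f hf
    rw [Turn.mem_RF] at hf
    refine hG f (fun hh => ?_) (by linarith [hf.1]) (by linarith [hf.2.1])
    have := Turn.mem_RF.1 (Turn.SS_sub hh)
    linarith [this.2.1, hf.1]
  refine ⟨u4, v4, e1, e2, e3, e4, e5, GridA.conn_congr _ (fun f hf => (hext f hf).symm) P4, ?_⟩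
  refine Turn.land (z₀ := v1) (w₁ := w1) (w₂ := w2) (z₁ := z1) he hp hS
    (F₁ := RF (R - 4 * r) R (h + 3 * r) (h + 4 * r))
    (F₂ := RF (R - 4 * r) (R - 3 * r) (h - 4 * r) (h + 4 * r))
    (F₃ := RF (R - 4 * r) (R + 6 * r) (h - 4 * r) (h - 3 * r))
    (F₄ := RF (R + 5 * r) (R + 6 * r) (-(3 * R)) (h - 3 * r)) ?_ hext ?_ ?_ ?_
    (Relation.ReflTransGen.trans P1.symm q1) (Relation.ReflTransGen.trans q2.symm q4)
    (Relation.ReflTransGen.trans q3.symm q5) q6.symm ?_ ?_ ?_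
  · rintro f hf hfS
    have hf' : R - 4 * r ≤ f.1 ∧ f.1 < R + 6 * r ∧ h - 4 * r ≤ f.2 ∧ f.2 < h + 4 * r ∧
        (f.2 ≠ h ∨ f.1 < R) := by
      clear * - hf hr hrR hh1 hh2
      rcases hf with (hf | hf) | hf <;> rw [Turn.mem_RF] at hf <;> omega
    exact ⟨hG f hfS (by linarith [hf'.1]) (by linarith [hf'.2.1]),
      not_bad_near (g := 8 * r) hR hrR hω (by linarith [hf'.1]) (by linarith [hf'.2.2.1])
        (by linarith [hf'.2.2.2.1]) hf'.2.2.2.2⟩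
  · exact Turn.par_end hpc a5 pv1
  · rw [z0r, ← hlo]; exact hne.symm
  · rw [z1r, hlo]
  · intro f hf
    rw [Turn.mem_RF] at hf
    simp only [stripZ, Set.mem_ofPred_eq]
    clear * - hf hr hrR hh1 hh2
    omega
  · intro f hf
    simp only [stripZ, Set.mem_ofPred_eq]
    clear * - hf hr hrR hh1 hh2
    rcases hf with (hf | hf) | hf <;> rw [Turn.mem_RF] at hf <;> omega
  · intro f hf
    rw [Turn.mem_RF] at hf
    simp only [stripZ, Set.mem_ofPred_eq]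
    clear * - hf hr hrR hh1 hh2
    omega

end Pool.Agent.PercT
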