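import Pool.Agent.Lib.MP_6bd702_percu2.FinalU
import Pool.Agent.Lib.MP_6bd702_percu2.Inputs
import Pool.Agent.Lib.MP_6bd702_perq.P2Final

/-!
# The upper bound for the two arm probability, unconditional
-/

set_option autoImplicit false

namespace Pool.Agent.PercT

open Finset Pool.Agent.Perc

theorem exact_holds : Exact := by
  obtain ⟨C, hC, h⟩ := pv_le
  refine ⟨C, hC, fun n H hn => ?_⟩
  have e1 : Wrap (2 * n) (H : ℤ) (0, 0, false) ⊆ wrap2 (2 * n) H := by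
    rintro ω ⟨h1, h2⟩
    have e2 : stripZ (H : ℤ) = strip H := rfl
    rw [e2] at h1 h2
    refine ⟨?_, ?_⟩
    · simpa [ua] using h1
    · simpa [ub, add_comm] using h2
  calc pr (RF 0 ((2 * n : ℕ) : ℤ) (-H) H) (Wrap (2 * n) H (0, 0, false))
      ≤ pr (RF 0 ((2 * n : ℕ) : ℤ) (-H) H) (wrap2 (2 * n) H) := pr_mono _ fun ω hω => e1 hω
    _ ≤ pv n := pr_wrap2_le_pv (by omega) H
    _ ≤ C * (n : ℝ) ^ (-(1 / 4 : ℝ)) := h n (by omega)

/-- Two arms: upper bound for the four unit edges at the origin. -/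
theorem arm2_le_quarter : ∃ C : ℝ, 0 < C ∧ ∀ R : ℕ, 1 ≤ R → ∀ i : Fin 4,
    pr (RF (-R) R (-R) R) (Arm2 R (eo i)) ≤ C * (R : ℝ) ^ (-(1 / 4 : ℝ)) :=
  arm2_upper rsw_holds oneArm_holds exact_holds

/-- The two arm probability is at most `C R ^ (-1 / 4)`. -/
theorem p2_le_quarter : ∃ C : ℝ, 0 < C ∧ ∀ R : ℕ, 1 ≤ R →
    p2 R ≤ C * (R : ℝ) ^ (-(1 / 4 : ℝ)) :=
  p2_upper rsw_holds oneArm_holds exact_holds

end Pool.Agent.PercT
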